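import Mathlib
import Pool.Agent.Q98.SG.T

/-!
# The inertia group when the exponent modulo the centre is finite
-/

set_option autoImplicit false

namespace Pool.Agent.K9h75.BD

open Pool.Agent.Q98.SG

section

variable {S : Type*} [CommRing S] [IsDedekindDomain S] {G : Type*} [Group G]
  [MulSemiringAction G S] {P : Ideal S} [hPp : P.IsPrime]

omit [IsDedekindDomain S] hPp in
lemma stab_pow {g : G} (hg : ∀ x ∈ P, g • x ∈ P) {i : ℕ} {x : S} (hx : x ∈ P ^ i) :
    g • x ∈ P ^ i := by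
  have h1 : P ≤ P.comap (MulSemiringAction.toRingHom G S g) := fun y hy => hg y hy
  have h2 : P ^ i ≤ (P ^ i).comap (MulSemiringAction.toRingHom G S g) :=
    (Ideal.pow_right_mono h1 i).trans (Ideal.le_comap_pow _ _)
  exact h2 hx

/-- the tame character and its values -/
theorem tame_char' (hP0 : P ≠ ⊥) :
    ∃ π : S, π ∈ P ∧ π ∉ P ^ (1 + 1) ∧ (∀ y ∈ P, ∃ a : S, ∃ e ∈ P ^ 2, π * a + e = y) ∧
      ∃ θ : P.inertia G →* (S ⧸ P), ∀ (σ : P.inertia G) (a : S),
        (σ : G) • π - π * a ∈ P ^ 2 → θ σ = Ideal.Quotient.mk P a := by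
  classical
  have hlt := Ideal.pow_succ_lt_pow hP0 1
  obtain ⟨π, hπ1, hπ2⟩ := Set.exists_of_ssubset hlt
  have hπ1' : π ∈ P ^ 1 := hπ1
  have hπ2' : π ∉ P ^ (1 + 1) := hπ2
  have hπ : π ∈ P := by rwa [pow_one] at hπ1'
  have hgen : ∀ y ∈ P, ∃ a : S, ∃ e ∈ P ^ 2, π * a + e = y := by
    intro y hy
    exact Ideal.exists_mul_add_mem_pow_succ hP0 π y hπ1' hπ2' (by rwa [pow_one])
  have hu : ∀ σ : P.inertia G, ∃ a : S, (σ : G) • π - π * a ∈ P ^ 2 := by
    intro σ
    obtain ⟨a, e, he, h⟩ := hgen _ (smul_mem σ.2 hπ)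
    refine ⟨a, ?_⟩
    rw [← h, add_sub_cancel_left]
    exact he
  choose u hu using hu
  have huniq : ∀ a b : S, π * a - π * b ∈ P ^ 2 → a - b ∈ P := by
    intro a b h
    rw [← mul_sub] at h
    exact Ideal.mem_prime_of_mul_mem_pow hP0 hπ2' h
  refine ⟨π, hπ, hπ2', hgen, ⟨⟨fun σ => Ideal.Quotient.mk P (u σ), ?_⟩, ?_⟩, ?_⟩
  · rw [← map_one (Ideal.Quotient.mk P), Ideal.Quotient.eq]
    apply huniq
    have h1 := hu 1
    rw [OneMemClass.coe_one, one_smul] at h1
    have h2 : π * u 1 - π * 1 = -(π - π * u 1) := by ring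
    rw [h2]
    exact Ideal.neg_mem_iff _ |>.2 h1
  · intro σ τ
    simp only
    rw [← map_mul, Ideal.Quotient.eq]
    apply huniq
    have h1 := hu (σ * τ)
    have h2 := hu τ
    have h3 := hu σ
    have h4 : ((σ * τ : P.inertia G) : G) • π = (σ : G) • ((τ : G) • π) := by
      rw [Subgroup.coe_mul, mul_smul]
    have h5 := smul_mem_pow σ.2 h2
    rw [smul_sub, smul_mul', ← h4] at h5
    have h6 : π * u (σ * τ) - π * (u σ * u τ) =
        -(((σ * τ : P.inertia G) : G) • π - π * u (σ * τ)) +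
        (((σ * τ : P.inertia G) : G) • π - (σ : G) • π * (σ : G) • u τ) +
        ((σ : G) • π - π * u σ) * (σ : G) • u τ + π * u σ * ((σ : G) • u τ - u τ) := by ring
    rw [h6]
    refine Ideal.add_mem _ (Ideal.add_mem _ (Ideal.add_mem _ ((Ideal.neg_mem_iff _).2 h1) h5)
      (Ideal.mul_mem_right _ _ h3)) ?_
    have h7 : π * u σ * ((σ : G) • u τ - u τ) = u σ * (π * ((σ : G) • u τ - u τ)) := by ring
    rw [h7]
    apply Ideal.mul_mem_left
    rw [pow_two]
    exact Ideal.mul_mem_mul hπ (inert_smul σ.2 _)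
  · intro σ a ha
    show Ideal.Quotient.mk P (u σ) = Ideal.Quotient.mk P a
    rw [Ideal.Quotient.eq]
    apply huniq
    have h1 := hu σ
    have h2 : π * u σ - π * a = ((σ : G) • π - π * a) - ((σ : G) • π - π * u σ) := by ring
    rw [h2]
    exact Ideal.sub_mem _ ha h1

/-- if all `d`-th powers are central and the prime number `p` does not divide `d`, then the
inertia group at a prime above `p` has a central `p`-subgroup of index at most `d (p - 1)` -/
theorem inertia_wild [Finite G] [FaithfulSMul G S] (hP0 : P ≠ ⊥) [Finite (S ⧸ P)] {p : ℕ}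
    (hp : p.Prime) (hpP : (p : S) ∈ P) {d : ℕ} (hd : 0 < d) (hdp : ¬ p ∣ d)
    (hcen : ∀ σ τ : G, σ ^ d * τ = τ * σ ^ d) (φ : G) (hφ : ∀ x : S, x ^ p - φ • x ∈ P) :
    ∃ W : Subgroup G, W ≤ Subgroup.center G ∧ IsPGroup p W ∧
      Nat.card (P.inertia G) ≤ d * (p - 1) * Nat.card W := by
  classical
  obtain ⟨π, hπ, hπ2, hgen, θ, hθ⟩ := tame_char' (G := G) (P := P) hP0
  have hmax : P.IsMaximal := hPp.isMaximal hP0
  let _ : Field (S ⧸ P) := Ideal.Quotient.field P
  have hker0 : ∀ w : P.inertia G, θ w = 1 → (w : G) • π - π ∈ P ^ 2 := by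
    intro w hw
    obtain ⟨a, e, he, h⟩ := hgen _ (smul_mem w.2 hπ)
    have h1 : (w : G) • π - π * a ∈ P ^ 2 := by
      rw [← h, add_sub_cancel_left]; exact he
    have h2 := hθ w a h1
    rw [hw, ← map_one (Ideal.Quotient.mk P), eq_comm, Ideal.Quotient.eq] at h2
    have h3 : (w : G) • π - π = ((w : G) • π - π * a) + π * (a - 1) := by ring
    rw [h3]
    refine Ideal.add_mem _ h1 ?_
    rw [pow_two]
    exact Ideal.mul_mem_mul hπ h2
  -- kernel elements are central of `p`-power order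
  have hker : ∀ w : P.inertia G, θ w = 1 → (w : G) ∈ Subgroup.center G ∧
      ∃ a : ℕ, (w : G) ^ (p ^ a) = 1 := by
    intro w hw
    have hw0 : 0 < orderOf (w : G) := orderOf_pos _
    obtain ⟨a, m, hm, hab⟩ := Nat.exists_eq_pow_mul_and_not_dvd hw0.ne' p hp.ne_one
    have h1 : (w : G) ^ (p ^ a) = 1 := by
      have h3 : θ (w ^ (p ^ a)) = 1 := by rw [map_pow, hw, one_pow]
      have h4 := hker0 _ h3
      have h5 : (((w ^ (p ^ a) : P.inertia G) : G)) = (w : G) ^ (p ^ a) := by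
        rw [Subgroup.coe_pow]
      rw [h5] at h4
      have h6 : (w : G) ^ (p ^ a) ∈ P.inertia G := Subgroup.pow_mem _ w.2 _
      refine tame_trivial h6 hπ hgen h4 (m := m) ?_ ?_
      · rw [← pow_mul, ← hab]
        exact pow_orderOf_eq_one _
      · intro h7
        have h8 : IsCoprime (p : ℤ) (m : ℤ) :=
          Nat.isCoprime_iff_coprime.2 ((Nat.Prime.coprime_iff_not_dvd hp).2 hm)
        obtain ⟨x, y, hxy⟩ := h8
        apply hPp.ne_top
        rw [Ideal.eq_top_iff_one]
        have h9 : (1 : S) = (x : S) * (p : S) + (y : S) * (m : S) := by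
          have := congrArg (Int.cast : ℤ → S) hxy
          push_cast at this
          exact this.symm
        rw [h9]
        exact P.add_mem (P.mul_mem_left _ hpP) (P.mul_mem_left _ h7)
    refine ⟨?_, a, h1⟩
    have h2 : (w : G) ^ d ∈ Subgroup.center G := by
      rw [Subgroup.mem_center_iff]
      intro g
      exact (hcen _ g).symm
    have h3 : Nat.Coprime (p ^ a) d := by
      apply Nat.Coprime.pow_left
      exact (Nat.Prime.coprime_iff_not_dvd hp).2 hdp
    have h4 : IsCoprime ((p ^ a : ℕ) : ℤ) (d : ℤ) := Nat.isCoprime_iff_coprime.2 h3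
    obtain ⟨x, y, hxy⟩ := h4
    have h5 : (w : G) = ((w : G) ^ (p ^ a)) ^ x * ((w : G) ^ d) ^ y := by
      rw [← zpow_natCast, ← zpow_natCast, ← zpow_mul, ← zpow_mul, ← zpow_add]
      have : ((p ^ a : ℕ) : ℤ) * x + (d : ℤ) * y = 1 := by rw [← hxy]; ring
      rw [this, zpow_one]
    rw [h5, h1, one_zpow, one_mul]
    exact Subgroup.zpow_mem _ h2 _
  -- Frobenius preserves `P`
  have hφP : ∀ x ∈ P, φ • x ∈ P := by
    intro x hx
    have h1 := P.sub_mem (P.pow_mem_of_mem hx p hp.pos) (hφ x)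
    rwa [sub_sub_cancel] at h1
  have hφπ : φ • π ∉ P ^ (1 + 1) := by
    intro h
    apply hπ2
    have h1 : ∀ n : ℕ, φ ^ n • (φ • π) ∈ P ^ (1 + 1) := by
      intro n
      induction n with
      | zero => simpa using h
      | succ n ih =>
        rw [pow_succ' φ n, mul_smul]
        exact stab_pow hφP ih
    have h2 := h1 (orderOf φ - 1)
    rw [← mul_smul, ← pow_succ, Nat.sub_add_cancel (orderOf_pos φ), pow_orderOf_eq_one,
      one_smul] at h2
    exact h2
  -- the values of the tame character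
  have hval : ∀ σ : P.inertia G, (θ σ) ^ (d * (p - 1)) = 1 := by
    intro σ
    set y : P.inertia G := σ ^ d with hy
    have hyG : (y : G) = (σ : G) ^ d := by rw [hy, Subgroup.coe_pow]
    obtain ⟨a, e, he, h⟩ := hgen _ (smul_mem y.2 hπ)
    have h1 : (y : G) • π - π * a ∈ P ^ 2 := by
      rw [← h, add_sub_cancel_left]; exact he
    have h2 := hθ y a h1
    obtain ⟨c, e₁, he₁, hc⟩ := hgen _ (hφP π hπ)
    have h3 : (y : G) • (φ • π) - (φ • π) * a ∈ P ^ 2 := by
      have h30 : (y : G) • (φ • π) - (φ • π) * a =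
          π * a * ((y : G) • c - c) + e * ((y : G) • c) + (y : G) • e₁ - e₁ * a := by
        rw [← hc, smul_add, smul_mul', ← h]
        ring
      rw [h30]
      refine Ideal.sub_mem _ (Ideal.add_mem _ (Ideal.add_mem _ ?_ (Ideal.mul_mem_right _ _ he))
        (smul_mem_pow y.2 he₁)) (Ideal.mul_mem_right _ _ he₁)
      rw [pow_two]
      exact Ideal.mul_mem_mul (Ideal.mul_mem_right _ _ hπ) (inert_smul y.2 _)
    have h4 : φ • ((y : G) • π) - (φ • π) * a ^ p ∈ P ^ 2 := by
      have h40 : φ • ((y : G) • π) - (φ • π) * a ^ p =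
          -((φ • π) * (a ^ p - φ • a)) + φ • e := by
        rw [← h, smul_add, smul_mul']
        ring
      rw [h40]
      refine Ideal.add_mem _ ((Ideal.neg_mem_iff _).2 ?_) (stab_pow hφP he)
      rw [pow_two]
      exact Ideal.mul_mem_mul (hφP π hπ) (hφ a)
    have h5 : φ • ((y : G) • π) = (y : G) • (φ • π) := by
      rw [← mul_smul, ← mul_smul, hyG, hcen]
    have h6 : (φ • π) * (a ^ p - a) ∈ P ^ (1 + 1) := by
      have h60 : (φ • π) * (a ^ p - a) =
          ((y : G) • (φ • π) - (φ • π) * a) - (φ • ((y : G) • π) - (φ • π) * a ^ p) := by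
        rw [h5]; ring
      rw [h60]
      exact Ideal.sub_mem _ h3 h4
    have h7 : a ^ p - a ∈ P := Ideal.mem_prime_of_mul_mem_pow hP0 hφπ h6
    have h8 : (Ideal.Quotient.mk P a) ^ p = Ideal.Quotient.mk P a := by
      rw [← map_pow, Ideal.Quotient.eq]
      exact h7
    have h9 : (Ideal.Quotient.mk P a) ≠ 0 := by
      rw [← h2]
      intro h0
      have h90 : θ y * θ y⁻¹ = 1 := by rw [← map_mul, mul_inv_cancel, map_one]
      rw [h0, zero_mul] at h90
      exact zero_ne_one h90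
    have h10 : (Ideal.Quotient.mk P a) ^ (p - 1) = 1 := by
      have h100 : (Ideal.Quotient.mk P a) ^ (p - 1) * (Ideal.Quotient.mk P a) =
          1 * (Ideal.Quotient.mk P a) := by
        rw [← pow_succ, Nat.sub_add_cancel hp.pos, h8, one_mul]
      exact mul_right_cancel₀ h9 h100
    rw [pow_mul, ← map_pow, ← hy, h2, h10]
  let θ' : P.inertia G →* (S ⧸ P)ˣ := θ.toHomUnits
  have hθ' : ∀ σ, ((θ' σ : (S ⧸ P)ˣ) : S ⧸ P) = θ σ := fun σ => rfl
  have hn0 : d * (p - 1) ≠ 0 := by
    have := hp.two_le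
    exact Nat.mul_ne_zero hd.ne' (by omega)
  have : NeZero (d * (p - 1)) := ⟨hn0⟩
  have hrange : Nat.card θ'.range ≤ d * (p - 1) := by
    have h1 : θ'.range ≤ rootsOfUnity (d * (p - 1)) (S ⧸ P) := by
      rintro _ ⟨σ, rfl⟩
      rw [mem_rootsOfUnity]
      apply Units.ext
      push_cast
      exact hval σ
    have h2 : Nat.card (rootsOfUnity (d * (p - 1)) (S ⧸ P)) ≤ d * (p - 1) :=
      card_rootsOfUnity _ _
    exact (Subgroup.card_le_of_le h1).trans h2
  refine ⟨θ'.ker.map (P.inertia G).subtype, ?_, ?_, ?_⟩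
  · rintro _ ⟨w, hw, rfl⟩
    have h1 : θ w = 1 := by
      rw [← hθ', (MonoidHom.mem_ker.1 hw)]
      rfl
    exact (hker w h1).1
  · rintro ⟨_, w, hw, rfl⟩
    have h1 : θ w = 1 := by
      rw [← hθ', (MonoidHom.mem_ker.1 hw)]
      rfl
    obtain ⟨a, ha⟩ := (hker w h1).2
    refine ⟨a, Subtype.ext ?_⟩
    rw [Subgroup.coe_pow]
    exact ha
  · have h1 : Nat.card (θ'.ker.map (P.inertia G).subtype) = Nat.card θ'.ker :=
      Subgroup.card_map_of_injective (Subgroup.subtype_injective _)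
    rw [h1, ← Subgroup.card_mul_index θ'.ker, Subgroup.index_ker, mul_comm]
    exact Nat.mul_le_mul_right _ hrange

end

end Pool.Agent.K9h75.BD
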