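import Mathlib
import Pool.Agent.W738.SAL.A

/-!
# The norm inequality
-/

set_option autoImplicit false

open NumberField

namespace Pool.Agent.K9h75.BD

open Pool.Agent.W738.SAL

section

variable {M : Type} [Field M] [NumberField M]

lemma coe_smul' (γ : M ≃ₐ[ℚ] M) (x : 𝓞 M) : ((γ • x : 𝓞 M) : M) = γ (x : M) := rfl

/-- the orbit of `x` under `H`, and the orders of the stabilizer and of `H` -/
lemma orbit_card {x : 𝓞 M} {H : Subgroup (M ≃ₐ[ℚ] M)}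
    (hH : MulAction.stabilizer (M ≃ₐ[ℚ] M) x ≤ H) {Z : Finset (𝓞 M)}
    (hZ : ∀ z, z ∈ Z ↔ ∃ h ∈ H, h • x = z) :
    Z.card * Nat.card (MulAction.stabilizer (M ≃ₐ[ℚ] M) x) = Nat.card H := by
  classical
  have h1 := Nat.card_congr (MulAction.orbitProdStabilizerEquivGroup H x)
  rw [Nat.card_prod] at h1
  have h2 : Nat.card (MulAction.orbit H x) = Z.card := by
    have h3 : MulAction.orbit H x = (Z : Set (𝓞 M)) := by
      ext z
      rw [MulAction.mem_orbit_iff, Finset.mem_coe, hZ]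
      constructor
      · rintro ⟨⟨h, hh⟩, rfl⟩
        exact ⟨h, hh, rfl⟩
      · rintro ⟨h, hh, rfl⟩
        exact ⟨⟨h, hh⟩, rfl⟩
    rw [h3, Nat.card_coe_set_eq, Set.ncard_coe_finset]
  have h4 : Nat.card (MulAction.stabilizer H x) =
      Nat.card (MulAction.stabilizer (M ≃ₐ[ℚ] M) x) := by
    have h5 : MulAction.stabilizer H x = (MulAction.stabilizer (M ≃ₐ[ℚ] M) x).subgroupOf H := by
      ext h
      rw [MulAction.mem_stabilizer_iff, Subgroup.mem_subgroupOf, MulAction.mem_stabilizer_iff]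
      rfl
    rw [h5]
    exact Nat.card_congr (Subgroup.subgroupOfEquivOfLe hH).toEquiv
  rw [h2, h4] at h1
  exact h1

variable [IsGalois ℚ M]

/-- a product over all embeddings is a product over the Galois group -/
lemma prod_embeddings (ι : M →ₐ[ℚ] ℂ) (f : ℂ → ℝ) (y : M) :
    ∏ φ : M →ₐ[ℚ] ℂ, f (φ y) = ∏ γ : M ≃ₐ[ℚ] M, f (ι (γ y)) := by
  classical
  have hbij : Function.Bijective (fun γ : M ≃ₐ[ℚ] M => ι.comp (γ : M →ₐ[ℚ] M)) := by
    rw [Fintype.bijective_iff_injective_and_card]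
    constructor
    · intro γ δ h
      ext z
      have := AlgHom.congr_fun h z
      exact ι.injective this
    · rw [AlgHom.card ℚ M ℂ, ← IsGalois.card_aut_eq_finrank, Nat.card_eq_fintype_card]
  symm
  exact Fintype.prod_bijective _ hbij _ _ (fun γ => rfl)

/-- the norm inequality -/
theorem norm_ineq (ι : M →ₐ[ℚ] ℂ) {β : ℝ} (hβ : 1 < β) (x : 𝓞 M)
    (hx : ι (x : M) = (β : ℂ))
    (hone : ∀ γ : M ≃ₐ[ℚ] M, γ • x ≠ x → ‖ι ((γ • x : 𝓞 M) : M)‖ ≤ 1)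
    (H : Subgroup (M ≃ₐ[ℚ] M)) (hH : MulAction.stabilizer (M ≃ₐ[ℚ] M) x ≤ H)
    (Z : Finset (𝓞 M)) (hZ : ∀ z, z ∈ Z ↔ ∃ h ∈ H, h • x = z) (σ : M ≃ₐ[ℚ] M) {p a b : ℕ}
    (hab : b < a)
    (hdiv : ∏ z ∈ Z, (x ^ a - (σ • z) ^ b) ∈ Ideal.span {(p : 𝓞 M)}) :
    (p : ℝ) ^ H.index ≤ 2 ^ (Z.card * H.index) * β ^ (a + b) := by
  classical
  set μ : 𝓞 M → ℝ := fun w => max 1 ‖ι (w : M)‖ with hμ
  have hμ1 : ∀ w : 𝓞 M, 1 ≤ μ w := fun w => le_max_left _ _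
  have hμ2 : ∀ w : 𝓞 M, ‖ι (w : M)‖ ≤ μ w := fun w => le_max_right _ _
  have hnx : ‖ι (x : M)‖ = β := by
    rw [hx, Complex.norm_real, Real.norm_eq_abs, abs_of_pos (by linarith)]
  have hβall : ∀ γ : M ≃ₐ[ℚ] M, ‖ι ((γ • x : 𝓞 M) : M)‖ ≤ β := by
    intro γ
    by_cases h : γ • x = x
    · rw [h, hnx]
    · exact (hone γ h).trans hβ.le
  -- the product is not zero
  have hne : ∏ z ∈ Z, (x ^ a - (σ • z) ^ b) ≠ 0 := by
    rw [Finset.prod_ne_zero_iff]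
    intro z hz h0
    obtain ⟨h, hh, rfl⟩ := (hZ z).1 hz
    have h1 := congrArg (fun w : 𝓞 M => ι (w : M)) (sub_eq_zero.1 h0)
    simp only [map_pow, RingOfIntegers.coe_eq_algebraMap] at h1
    have h2 := congrArg norm h1
    rw [norm_pow, norm_pow] at h2
    have h3 : ‖ι (algebraMap (𝓞 M) M x)‖ = β := hnx
    have h4 : ‖ι (algebraMap (𝓞 M) M (σ • h • x))‖ ≤ β := by
      have := hβall (σ * h)
      rw [mul_smul] at this
      exact this
    rw [h3] at h2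
    have h5 : β ^ b < β ^ a := pow_lt_pow_right₀ hβ hab
    have h6 := pow_le_pow_left₀ (norm_nonneg (ι (algebraMap (𝓞 M) M (σ • h • x)))) h4 b
    linarith
  obtain ⟨y, hy⟩ := Ideal.mem_span_singleton.1 hdiv
  have hyM : (((∏ z ∈ Z, (x ^ a - (σ • z) ^ b) : 𝓞 M)) : M) = (p : M) * (y : M) := by
    rw [hy]
    simp
  have hneM : (((∏ z ∈ Z, (x ^ a - (σ • z) ^ b) : 𝓞 M)) : M) ≠ 0 := by
    intro h
    exact hne (RingOfIntegers.coe_injective (by simpa using h))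
  have hlow := pow_le_prod (F := M) y.2 hyM hneM
  rw [prod_embeddings ι (fun w => ‖w‖)] at hlow
  -- the upper bound
  have hfac : ∀ γ : M ≃ₐ[ℚ] M,
      ‖ι (γ ((∏ z ∈ Z, (x ^ a - (σ • z) ^ b) : 𝓞 M) : M))‖ ≤
        ∏ z ∈ Z, (2 * (μ (γ • x) ^ a * μ (γ • σ • z) ^ b)) := by
    intro γ
    have h1 : ι (γ ((∏ z ∈ Z, (x ^ a - (σ • z) ^ b) : 𝓞 M) : M)) =
        ∏ z ∈ Z, (ι ((γ • x : 𝓞 M) : M) ^ a - ι ((γ • σ • z : 𝓞 M) : M) ^ b) := by
      simp only [RingOfIntegers.coe_eq_algebraMap, map_prod, map_sub, map_pow]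
      rfl
    rw [h1, norm_prod]
    refine Finset.prod_le_prod (fun z _ => norm_nonneg _) fun z _ => ?_
    refine (norm_sub_le _ _).trans ?_
    rw [norm_pow, norm_pow]
    have h2 : ‖ι ((γ • x : 𝓞 M) : M)‖ ^ a ≤ μ (γ • x) ^ a :=
      pow_le_pow_left₀ (norm_nonneg _) (hμ2 _) _
    have h3 : ‖ι ((γ • σ • z : 𝓞 M) : M)‖ ^ b ≤ μ (γ • σ • z) ^ b :=
      pow_le_pow_left₀ (norm_nonneg _) (hμ2 _) _
    have h4 : 1 ≤ μ (γ • x) ^ a := one_le_pow₀ (hμ1 _)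
    have h5 : 1 ≤ μ (γ • σ • z) ^ b := one_le_pow₀ (hμ1 _)
    nlinarith
  have hup : ∏ γ : M ≃ₐ[ℚ] M, ‖ι (γ ((∏ z ∈ Z, (x ^ a - (σ • z) ^ b) : 𝓞 M) : M))‖ ≤
      ∏ γ : M ≃ₐ[ℚ] M, ∏ z ∈ Z, (2 * (μ (γ • x) ^ a * μ (γ • σ • z) ^ b)) :=
    Finset.prod_le_prod (fun γ _ => norm_nonneg _) fun γ _ => hfac γ
  set PP : ℝ := ∏ γ : M ≃ₐ[ℚ] M, μ (γ • x) with hPP
  have hre : ∀ δ : M ≃ₐ[ℚ] M, ∏ γ : M ≃ₐ[ℚ] M, μ (γ • δ • x) = PP := by
    intro δ
    rw [hPP]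
    refine Fintype.prod_equiv (Equiv.mulRight δ) _ _ fun γ => ?_
    simp [mul_smul]
  have hprod : ∏ γ : M ≃ₐ[ℚ] M, ∏ z ∈ Z, (2 * (μ (γ • x) ^ a * μ (γ • σ • z) ^ b)) =
      2 ^ (Z.card * Nat.card (M ≃ₐ[ℚ] M)) * PP ^ ((a + b) * Z.card) := by
    rw [Finset.prod_comm]
    have h1 : ∀ z ∈ Z, ∏ γ : M ≃ₐ[ℚ] M, (2 * (μ (γ • x) ^ a * μ (γ • σ • z) ^ b)) =
        2 ^ (Nat.card (M ≃ₐ[ℚ] M)) * PP ^ (a + b) := by
      intro z hz
      obtain ⟨h, hh, rfl⟩ := (hZ z).1 hz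
      rw [Finset.prod_mul_distrib, Finset.prod_mul_distrib, Finset.prod_const,
        Finset.prod_pow, Finset.prod_pow, Finset.card_univ, Nat.card_eq_fintype_card]
      have h2 : ∏ γ : M ≃ₐ[ℚ] M, μ (γ • σ • h • x) = PP := by
        rw [← hre (σ * h)]
        simp only [mul_smul]
      rw [h2, ← hPP, pow_add]
    rw [Finset.prod_congr rfl h1, Finset.prod_const, mul_pow, ← pow_mul, ← pow_mul,
      mul_comm Z.card]
  have hPPv : PP = β ^ Nat.card (MulAction.stabilizer (M ≃ₐ[ℚ] M) x) := by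
    rw [hPP]
    have h1 : ∀ γ : M ≃ₐ[ℚ] M, μ (γ • x) =
        if γ ∈ MulAction.stabilizer (M ≃ₐ[ℚ] M) x then β else 1 := by
      intro γ
      split_ifs with h
      · rw [MulAction.mem_stabilizer_iff] at h
        rw [h]
        show max 1 ‖ι (x : M)‖ = β
        rw [hnx]
        exact max_eq_right hβ.le
      · rw [MulAction.mem_stabilizer_iff] at h
        exact max_eq_left (hone γ h)
    rw [Finset.prod_congr rfl fun γ _ => h1 γ, Finset.prod_ite, Finset.prod_const,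
      Finset.prod_const_one, mul_one]
    congr 1
    rw [Nat.card_eq_fintype_card, Fintype.card_subtype]
  have horb := orbit_card hH hZ
  have hidx : Nat.card H * H.index = Nat.card (M ≃ₐ[ℚ] M) := Subgroup.card_mul_index H
  have hH0 : Nat.card H ≠ 0 := Nat.card_pos.ne'
  have hfin : ((p : ℝ) ^ H.index) ^ Nat.card H ≤
      (2 ^ (Z.card * H.index) * β ^ (a + b)) ^ Nat.card H := by
    have h1 : ((p : ℝ) ^ H.index) ^ Nat.card H = (p : ℝ) ^ (Module.finrank ℚ M) := by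
      rw [← pow_mul, mul_comm, hidx, IsGalois.card_aut_eq_finrank]
    rw [h1]
    refine (hlow.trans (hup.trans_eq hprod)).trans_eq ?_
    rw [hPPv, mul_pow, ← pow_mul, ← pow_mul, ← pow_mul, ← hidx, ← horb]
    congr 1
    · congr 1
      ring
    · congr 1
      ring
  exact (pow_le_pow_iff_left₀ (by positivity) (by positivity) hH0).1 hfin

end

end Pool.Agent.K9h75.BD
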