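import Mathlib

/-!
# Two central subgroups of coprime orders
-/

set_option autoImplicit false

namespace Pool.Agent.K9h75.BD

/-- central subgroups meet a subgroup without normal core trivially -/
theorem central_card {G : Type*} [Group G] [Finite G] (U W₁ W₂ : Subgroup G)
    (hU : U.normalCore = ⊥) (h1 : W₁ ≤ Subgroup.center G) (h2 : W₂ ≤ Subgroup.center G)
    {p q : ℕ} (hp : p.Prime) (hq : q.Prime) (hpq : p ≠ q) (hW₁ : IsPGroup p W₁)
    (hW₂ : IsPGroup q W₂) : Nat.card W₁ * Nat.card W₂ ≤ U.index := by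
  have : Fact p.Prime := ⟨hp⟩
  have : Fact q.Prime := ⟨hq⟩
  have hdis : Disjoint W₁ W₂ := IsPGroup.disjoint_of_ne p q hpq W₁ W₂ hW₁ hW₂
  have hcen : ∀ c : G, c ∈ Subgroup.center G → c ∈ U → c = 1 := by
    intro c hc hcU
    have h3 : c ∈ U.normalCore := by
      intro b
      have h4 : b * c = c * b := (Subgroup.mem_center_iff.1 hc b)
      rw [h4, mul_inv_cancel_right]
      exact hcU
    rw [hU] at h3
    exact Subgroup.mem_bot.1 h3
  have hinj : Function.Injective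
      (fun x : W₁ × W₂ => (QuotientGroup.mk ((x.1 : G) * (x.2 : G)) : G ⧸ U)) := by
    rintro ⟨w₁, w₂⟩ ⟨v₁, v₂⟩ h
    have h3 : ((w₁ : G) * (w₂ : G))⁻¹ * ((v₁ : G) * (v₂ : G)) ∈ U := QuotientGroup.eq.1 h
    have hw1 := h1 w₁.2
    have hv1 := h1 v₁.2
    have hw2 := h2 w₂.2
    have hv2 := h2 v₂.2
    have h4 : ((w₁ : G) * (w₂ : G))⁻¹ * ((v₁ : G) * (v₂ : G)) = 1 := by
      apply hcen _ _ h3
      exact Subgroup.mul_mem _ (Subgroup.inv_mem _ (Subgroup.mul_mem _ hw1 hw2))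
        (Subgroup.mul_mem _ hv1 hv2)
    have h5 : (w₁ : G) * (w₂ : G) = (v₁ : G) * (v₂ : G) := inv_mul_eq_one.1 h4
    have h6 : (v₁ : G)⁻¹ * (w₁ : G) = (v₂ : G) * (w₂ : G)⁻¹ := by
      rw [inv_mul_eq_iff_eq_mul, ← mul_assoc, ← h5, mul_inv_cancel_right]
    have h7 : (v₁ : G)⁻¹ * (w₁ : G) ∈ W₁ := W₁.mul_mem (W₁.inv_mem v₁.2) w₁.2
    have h8 : (v₁ : G)⁻¹ * (w₁ : G) ∈ W₂ := by
      rw [h6]
      exact W₂.mul_mem v₂.2 (W₂.inv_mem w₂.2)
    have h9 : (v₁ : G)⁻¹ * (w₁ : G) = 1 := by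
      have := (Subgroup.disjoint_def.1 hdis) h7 h8
      exact this
    have h10 : (v₁ : G) = w₁ := inv_mul_eq_one.1 h9
    have h11 : (v₂ : G) = w₂ := by
      rw [h9] at h6
      exact (mul_inv_eq_one.1 h6.symm)
    exact Prod.ext (Subtype.ext h10.symm) (Subtype.ext h11.symm)
  have h3 := Nat.card_le_card_of_injective _ hinj
  rw [Nat.card_prod] at h3
  exact h3

end Pool.Agent.K9h75.BD
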