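import Mathlib
import Pool.Agent.Q98.SG.M
import Pool.Agent.K9h75.BD.Tame

/-!
# Ramification in Galois number fields of finite exponent modulo the centre
-/

set_option autoImplicit false

open NumberField
open scoped Pointwise

namespace Pool.Agent.K9h75.BD

open Pool.Agent.Q98.SG

/-- the ramification index is at most `d (p - 1)` times the order of a central `p`-subgroup -/
theorem ram_bound {L : Type} [Field L] [NumberField L] [IsGalois ℚ L] {p d : ℕ} (hp : p.Prime)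
    (hd : 0 < d) (hdp : ¬ p ∣ d) (hcen : ∀ σ τ : L ≃ₐ[ℚ] L, σ ^ d * τ = τ * σ ^ d) :
    ∃ W : Subgroup (L ≃ₐ[ℚ] L), W ≤ Subgroup.center (L ≃ₐ[ℚ] L) ∧ IsPGroup p W ∧
      ∀ m : ℕ, d * (p - 1) * Nat.card W ≤ m →
        (Ideal.span {(p : 𝓞 L)}).radical ^ m ≤ Ideal.span {(p : 𝓞 L)} := by
  classical
  obtain ⟨P, hP, hpP⟩ := exists_prime_above (L := L) hp
  obtain ⟨hP0, hfin⟩ := finQuot hp P hpP
  obtain ⟨s₀, hs₀⟩ := frob_all (L := L) hp
  obtain ⟨s, -, hs⟩ := hs₀ P hP hpP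
  have : FaithfulSMul (L ≃ₐ[ℚ] L) (𝓞 L) :=
    (inferInstance : IsGaloisGroup (L ≃ₐ[ℚ] L) ℤ (𝓞 L)).faithful
  obtain ⟨W, hW1, hW2, hW3⟩ := inertia_wild (G := L ≃ₐ[ℚ] L) hP0 hp hpP hd hdp hcen s hs
  refine ⟨W, hW1, hW2, fun m hm => ?_⟩
  exact ramLe_of (L := L) hp (m := m) (fun Q hQ hpQ => by
    rw [ram_eq hp P Q hP hpP hQ hpQ]
    exact hW3.trans hm)

end Pool.Agent.K9h75.BD
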