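import Mathlib
import Pool.Agent.K9h75.BD.NF
import Pool.Agent.K9h75.BD.Congr
import Pool.Agent.K9h75.BD.Grp
import Pool.Agent.K9h75.BD.Norm

/-!
# The main inequality inside a Galois number field
-/

set_option autoImplicit false

open NumberField IntermediateField

namespace Pool.Agent.K9h75.BD

open Pool.Agent.Q98.SG Pool.Agent.W738.SAL

section

variable {M : Type} [Field M] [NumberField M] [IsGalois ℚ M]

omit [IsGalois ℚ M] in
lemma mem_fixing_adjoin (x : M) (γ : M ≃ₐ[ℚ] M) :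
    γ ∈ (ℚ⟮x⟯).fixingSubgroup ↔ γ x = x := by
  constructor
  · intro h
    exact (mem_fixingSubgroup_iff _ _).1 h x (mem_adjoin_simple_self ℚ x)
  · intro h
    have h1 : Subgroup.zpowers γ ≤ (ℚ⟮x⟯).fixingSubgroup := by
      rw [← le_iff_le, adjoin_simple_le_iff, mem_fixedField_iff]
      rintro f ⟨n, rfl⟩
      have h2 : γ ∈ MulAction.stabilizer (M ≃ₐ[ℚ] M) x := h
      exact (Subgroup.zpow_mem _ h2 n : γ ^ n ∈ MulAction.stabilizer (M ≃ₐ[ℚ] M) x)
    exact h1 (Subgroup.mem_zpowers γ)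

/-- degree and index -/
lemma degree_eq {x : 𝓞 M} {H : Subgroup (M ≃ₐ[ℚ] M)}
    (hH : MulAction.stabilizer (M ≃ₐ[ℚ] M) x ≤ H) {Z : Finset (𝓞 M)}
    (hZ : ∀ z, z ∈ Z ↔ ∃ h ∈ H, h • x = z) :
    Z.card * H.index = (minpoly ℚ (x : M)).natDegree := by
  have h1 := orbit_card hH hZ
  have h2 : Nat.card H * H.index = Nat.card (M ≃ₐ[ℚ] M) := Subgroup.card_mul_index H
  have h3 : MulAction.stabilizer (M ≃ₐ[ℚ] M) x = (ℚ⟮(x : M)⟯).fixingSubgroup := by
    ext γ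
    rw [mem_fixing_adjoin, MulAction.mem_stabilizer_iff]
    constructor
    · intro h
      have := congrArg (fun w : 𝓞 M => (w : M)) h
      exact this
    · intro h
      exact RingOfIntegers.coe_injective h
  have hint : IsIntegral ℚ (x : M) := Algebra.IsIntegral.isIntegral _
  have h4 : Module.finrank ℚ (ℚ⟮(x : M)⟯) * Module.finrank (ℚ⟮(x : M)⟯) M =
      Module.finrank ℚ M := Module.finrank_mul_finrank ℚ (ℚ⟮(x : M)⟯) M
  rw [adjoin.finrank hint, ← IsGalois.card_fixingSubgroup_eq_finrank, ← h3,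
    ← IsGalois.card_aut_eq_finrank, ← h2, ← h1] at h4
  have h5 : Nat.card (MulAction.stabilizer (M ≃ₐ[ℚ] M) x) ≠ 0 := Nat.card_pos.ne'
  have h6 : (minpoly ℚ (x : M)).natDegree * Nat.card (MulAction.stabilizer (M ≃ₐ[ℚ] M) x) =
      (Z.card * H.index) * Nat.card (MulAction.stabilizer (M ≃ₐ[ℚ] M) x) := by
    rw [h4]; ring
  exact (Nat.eq_of_mul_eq_mul_right (Nat.pos_of_ne_zero h5) h6).symm

/-- an integer fixed by the group of a subfield comes from the ring of integers of the subfield -/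
lemma descend (L : IntermediateField ℚ M) (c : 𝓞 M)
    (hc : ∀ δ ∈ L.fixingSubgroup, δ • c = c) : ∃ c₀ : 𝓞 L, algebraMap (𝓞 L) (𝓞 M) c₀ = c := by
  have h1 : (c : M) ∈ fixedField L.fixingSubgroup := by
    rw [mem_fixedField_iff]
    intro f hf
    have := congrArg (fun w : 𝓞 M => (w : M)) (hc f hf)
    exact this
  rw [IsGalois.fixedField_fixingSubgroup] at h1
  have h2 : IsIntegral ℤ (⟨(c : M), h1⟩ : L) := by
    have h3 : IsIntegral ℤ (L.val ⟨(c : M), h1⟩) := c.2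
    exact (isIntegral_algHom_iff (L.val.restrictScalars ℤ) L.val.injective).1 h3
  refine ⟨⟨⟨(c : M), h1⟩, h2⟩, ?_⟩
  apply RingOfIntegers.coe_injective
  rfl

/-- the inequality at one prime -/
theorem step (ι : M →ₐ[ℚ] ℂ) {β : ℝ} (hβ : 1 < β) (x : 𝓞 M)
    (hx : ι (x : M) = (β : ℂ))
    (hone : ∀ γ : M ≃ₐ[ℚ] M, γ • x ≠ x → ‖ι ((γ • x : 𝓞 M) : M)‖ ≤ 1)
    (H : Subgroup (M ≃ₐ[ℚ] M)) (hH : MulAction.stabilizer (M ≃ₐ[ℚ] M) x ≤ H)
    (Z : Finset (𝓞 M)) (hZ : ∀ z, z ∈ Z ↔ ∃ h ∈ H, h • x = z) {p d k : ℕ} (hp : p.Prime)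
    (hd : 0 < d)
    (hcen : ∀ σ τ : fixedField H.normalCore ≃ₐ[ℚ] fixedField H.normalCore,
      σ ^ d * τ = τ * σ ^ d)
    (hk : (Ideal.span {(p : 𝓞 (fixedField H.normalCore))}).radical ^ (p ^ k) ≤
      Ideal.span {(p : 𝓞 (fixedField H.normalCore))}) :
    (p : ℝ) ^ H.index ≤ 2 ^ (Z.card * H.index) * β ^ (p ^ (d + k) + p ^ k) := by
  classical
  have : Fact p.Prime := ⟨hp⟩
  have hnc : H.normalCore.Normal := H.normalCore_normal
  have hgal : IsGalois ℚ (fixedField H.normalCore) :=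
    IsGalois.of_fixedField_normal_subgroup (K := ℚ) (L := M) H.normalCore
  obtain ⟨σ₀, hσ₀⟩ := frob_central (L := fixedField H.normalCore) hp hcen
  obtain ⟨σ', hσ'⟩ := AlgEquiv.restrictNormalHom_surjective (F := ℚ)
    (K₁ := fixedField H.normalCore) M σ₀
  refine norm_ineq ι hβ x hx hone H hH Z hZ σ'
    (Nat.pow_lt_pow_right hp.one_lt (by omega)) ?_
  refine congr_prod Z (MulSemiringAction.toRingHom (M ≃ₐ[ℚ] M) (𝓞 M) σ') hp (d + k) k ?_
    ((hZ x).2 ⟨1, H.one_mem, one_smul _ _⟩)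
  intro n
  set c : 𝓞 M := (∏ z ∈ Z, (Polynomial.X - Polynomial.C z)).coeff n with hcdef
  have hinv : ∀ h ∈ H, h • c = c := by
    intro h hh
    refine coeff_invariant Z (MulSemiringAction.toRingHom (M ≃ₐ[ℚ] M) (𝓞 M) h) ?_ ?_ n
    · intro a b hab
      exact (smul_left_cancel h hab : a = b)
    · intro z hz
      obtain ⟨h', hh', rfl⟩ := (hZ z).1 hz
      exact (hZ _).2 ⟨h * h', H.mul_mem hh hh', mul_smul _ _ _⟩
  obtain ⟨c₀, hc₀⟩ := descend (fixedField H.normalCore) c (fun δ hδ => by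
    rw [fixingSubgroup_fixedField] at hδ
    exact hinv δ (H.normalCore_le hδ))
  have h1 : (c₀ ^ (p ^ d) - σ₀ • c₀) ^ (p ^ k) ∈
      Ideal.span {(p : 𝓞 (fixedField H.normalCore))} :=
    hk (Ideal.pow_mem_pow (hσ₀ c₀) _)
  have h2 : (c₀ ^ (p ^ d)) ^ (p ^ k) - (σ₀ • c₀) ^ (p ^ k) ∈
      Ideal.span {(p : 𝓞 (fixedField H.normalCore))} := by
    rw [← Ideal.Quotient.eq_zero_iff_mem] at h1 ⊢
    rw [map_sub, map_pow, map_pow (Ideal.Quotient.mk _) (σ₀ • c₀), mk_sub_pow, ← map_pow]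
    exact h1
  obtain ⟨y, hy⟩ := Ideal.mem_span_singleton.1 h2
  have h3 : algebraMap (𝓞 (fixedField H.normalCore)) (𝓞 M) (σ₀ • c₀) = σ' • c := by
    rw [← hc₀]
    apply RingOfIntegers.coe_injective
    show (((σ₀ • c₀ : 𝓞 (fixedField H.normalCore)) : fixedField H.normalCore) : M) =
      σ' ((c₀ : fixedField H.normalCore) : M)
    rw [coe_smul', ← hσ']
    exact AlgEquiv.restrictNormal_commutes σ' (fixedField H.normalCore) _
  rw [Ideal.mem_span_singleton]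
  refine ⟨algebraMap (𝓞 (fixedField H.normalCore)) (𝓞 M) y, ?_⟩
  have h4 := congrArg (algebraMap (𝓞 (fixedField H.normalCore)) (𝓞 M)) hy
  rw [map_sub, map_pow, map_pow, map_pow, h3, hc₀, map_mul, map_natCast, ← pow_mul,
    ← pow_add] at h4
  exact h4

end

end Pool.Agent.K9h75.BD
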