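import Mathlib
import Pool.Agent.K9h75.BD.Core
import Pool.Agent.Q262.RL.Num3

/-!
# The Frobenius endomorphism of the fixed field
-/

set_option autoImplicit false

open NumberField IntermediateField

namespace Pool.Agent.K9h75.BD

open Pool.Agent.Q98.SG Pool.Agent.W738.SAL

section

variable {L : Type} [Field L] [NumberField L] [IsGalois ℚ L]

/-- the central power of Frobenius -/
theorem frob_central' {p d : ℕ} (hp : p.Prime)
    (hcen : ∀ σ τ : L ≃ₐ[ℚ] L, σ ^ d * τ = τ * σ ^ d) :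
    ∃ σ : L ≃ₐ[ℚ] L, (∀ τ : L ≃ₐ[ℚ] L, σ * τ = τ * σ) ∧ ∀ T : 𝓞 L,
      T ^ (p ^ d) - σ • T ∈ (Ideal.span {(p : 𝓞 L)}).radical := by
  classical
  obtain ⟨s₀, hs₀⟩ := frob_all (L := L) hp
  refine ⟨s₀ ^ d, fun τ => hcen s₀ τ, fun T => ?_⟩
  rw [Ideal.radical_eq_sInf, Ideal.mem_sInf]
  rintro J ⟨hJ1, hJ2⟩
  have hJp : (p : 𝓞 L) ∈ J := hJ1 (Ideal.subset_span rfl)
  obtain ⟨s, hs, hx⟩ := hs₀ J hJ2 hJp
  have hpow : s ^ d = s₀ ^ d := by
    obtain ⟨g, hg⟩ := isConj_iff.1 hs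
    rw [← hg, conj_pow, ← hcen, mul_assoc, mul_inv_cancel, mul_one]
  rw [← hpow]
  have key : ∀ k : ℕ, T ^ (p ^ k) - s ^ k • T ∈ J := by
    intro k
    induction k with
    | zero => simp
    | succ k ih =>
      have h1 := hx (s ^ k • T)
      have h2 : (T ^ (p ^ k)) ^ p - (s ^ k • T) ^ p ∈ J := by
        obtain ⟨w, hw⟩ := sub_dvd_pow_sub_pow (T ^ (p ^ k)) (s ^ k • T) p
        rw [hw]
        exact J.mul_mem_right _ ih
      have h3 : T ^ (p ^ (k + 1)) - s ^ (k + 1) • T =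
          ((T ^ (p ^ k)) ^ p - (s ^ k • T) ^ p) + ((s ^ k • T) ^ p - s • s ^ k • T) := by
        rw [← pow_mul, ← pow_succ, pow_succ' s, mul_smul]
        ring
      rw [h3]
      exact J.add_mem h2 h1
  exact key d

end

section

variable {M : Type} [Field M] [NumberField M] [IsGalois ℚ M]

theorem fr_exists (H : Subgroup (M ≃ₐ[ℚ] M)) {p d k : ℕ} (hp : p.Prime)
    (hcen : ∀ σ τ : fixedField H.normalCore ≃ₐ[ℚ] fixedField H.normalCore,
      σ ^ d * τ = τ * σ ^ d)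
    (hk : (Ideal.span {(p : 𝓞 (fixedField H.normalCore))}).radical ^ (p ^ k) ≤
      Ideal.span {(p : 𝓞 (fixedField H.normalCore))}) :
    ∃ φ : fixedField H →ₐ[ℚ] fixedField H, Pool.Agent.Q262.RL.Fr p d k φ := by
  classical
  have : Fact p.Prime := ⟨hp⟩
  have hnc : H.normalCore.Normal := H.normalCore_normal
  have hgal : IsGalois ℚ (fixedField H.normalCore) :=
    IsGalois.of_fixedField_normal_subgroup (K := ℚ) (L := M) H.normalCore
  obtain ⟨σ₀, hσc, hσ₀⟩ := frob_central' (L := fixedField H.normalCore) hp hcen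
  set r0 : (M ≃ₐ[ℚ] M) →* (fixedField H.normalCore ≃ₐ[ℚ] fixedField H.normalCore) :=
    AlgEquiv.restrictNormalHom (fixedField H.normalCore) with hr0
  have hsurj : Function.Surjective r0 := AlgEquiv.restrictNormalHom_surjective (F := ℚ)
    (K₁ := fixedField H.normalCore) M
  have hker : r0.ker = H.normalCore := by
    exact (IntermediateField.restrictNormalHom_ker (fixedField H.normalCore)).trans
      (fixingSubgroup_fixedField _)
  obtain ⟨σ', hσ'⟩ := hsurj σ₀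
  have hfix : ∀ c : M, c ∈ fixedField H → σ' c ∈ fixedField H := by
    intro c hc
    rw [mem_fixedField_iff] at hc ⊢
    intro f hf
    have h1 : f⁻¹ * σ'⁻¹ * f * σ' ∈ r0.ker := by
      rw [MonoidHom.mem_ker, map_mul, map_mul, map_mul, map_inv, map_inv, hσ']
      have h2 : r0 f * σ₀ = σ₀ * r0 f := (hσc (r0 f)).symm
      rw [mul_assoc, h2]
      group
    have h3 : f⁻¹ * σ'⁻¹ * f * σ' ∈ H := H.normalCore_le (hker ▸ h1)
    have h4 : (f⁻¹ * σ'⁻¹ * f * σ') c = c := hc _ h3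
    have h5 : f * σ' = σ' * (f * (f⁻¹ * σ'⁻¹ * f * σ')) := by group
    calc f (σ' c) = (f * σ') c := rfl
      _ = (σ' * (f * (f⁻¹ * σ'⁻¹ * f * σ'))) c := by rw [← h5]
      _ = σ' (f ((f⁻¹ * σ'⁻¹ * f * σ') c)) := rfl
      _ = σ' (f c) := by rw [h4]
      _ = σ' c := by rw [hc f hf]
  let φ : fixedField H →ₐ[ℚ] fixedField H :=
    (((σ' : M →ₐ[ℚ] M).comp (fixedField H).val).codRestrict (fixedField H).toSubalgebra
      (fun y => hfix _ y.2))
  have hφ : ∀ y : fixedField H, ((φ y : fixedField H) : M) = σ' (y : M) := fun y => rfl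
  refine ⟨φ, fun x hx => ?_⟩
  have hxM : IsIntegral ℤ (x : M) :=
    hx.map ((fixedField H).val.restrictScalars ℤ)
  set c : 𝓞 M := ⟨(x : M), hxM⟩ with hcdef
  have hinv : ∀ h ∈ H, h • c = c := by
    intro h hh
    apply RingOfIntegers.coe_injective
    exact (mem_fixedField_iff H _).1 x.2 h hh
  obtain ⟨c₀, hc₀⟩ := descend (fixedField H.normalCore) c (fun δ hδ => by
    rw [fixingSubgroup_fixedField] at hδ
    exact hinv δ (H.normalCore_le hδ))
  have h1 : (c₀ ^ (p ^ d) - σ₀ • c₀) ^ (p ^ k) ∈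
      Ideal.span {(p : 𝓞 (fixedField H.normalCore))} :=
    hk (Ideal.pow_mem_pow (hσ₀ c₀) _)
  have h2 : (c₀ ^ (p ^ d)) ^ (p ^ k) - (σ₀ • c₀) ^ (p ^ k) ∈
      Ideal.span {(p : 𝓞 (fixedField H.normalCore))} := by
    rw [← Ideal.Quotient.eq_zero_iff_mem] at h1 ⊢
    rw [map_sub, map_pow, map_pow (Ideal.Quotient.mk _) (σ₀ • c₀), mk_sub_pow, ← map_pow]
    exact h1
  obtain ⟨y, hy⟩ := Ideal.mem_span_singleton.1 h2
  have h3 : algebraMap (𝓞 (fixedField H.normalCore)) (𝓞 M) (σ₀ • c₀) = σ' • c := by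
    rw [← hc₀]
    apply RingOfIntegers.coe_injective
    show (((σ₀ • c₀ : 𝓞 (fixedField H.normalCore)) : fixedField H.normalCore) : M) =
      σ' ((c₀ : fixedField H.normalCore) : M)
    rw [coe_smul', ← hσ']
    exact AlgEquiv.restrictNormal_commutes σ' (fixedField H.normalCore) _
  set y' : 𝓞 M := algebraMap (𝓞 (fixedField H.normalCore)) (𝓞 M) y with hy'
  have h4 := congrArg (algebraMap (𝓞 (fixedField H.normalCore)) (𝓞 M)) hy
  rw [map_sub, map_pow, map_pow, map_pow, h3, hc₀, map_mul, map_natCast, ← pow_mul,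
    ← pow_add] at h4
  have h5 : (x : M) ^ p ^ (d + k) - (σ' (x : M)) ^ p ^ k = (p : M) * (y' : M) := by
    have h6 : algebraMap (𝓞 M) M (c ^ p ^ (d + k) - (σ' • c) ^ p ^ k) =
        algebraMap (𝓞 M) M ((p : 𝓞 M) * y') := congrArg _ h4
    rw [map_sub, map_pow, map_pow, map_mul, map_natCast] at h6
    exact h6
  have hp0 : (p : M) ≠ 0 := by exact_mod_cast hp.ne_zero
  have hp0' : (p : fixedField H) ≠ 0 := by exact_mod_cast hp.ne_zero
  refine ⟨(x ^ p ^ (d + k) - (φ x) ^ p ^ k) / p, ?_, ?_⟩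
  · have h7 : (((x ^ p ^ (d + k) - (φ x) ^ p ^ k) / p : fixedField H) : M) = (y' : M) := by
      push_cast
      rw [hφ, h5]
      field_simp
    have h8 : IsIntegral ℤ ((fixedField H).val ((x ^ p ^ (d + k) - (φ x) ^ p ^ k) / p)) := by
      show IsIntegral ℤ (((x ^ p ^ (d + k) - (φ x) ^ p ^ k) / p : fixedField H) : M)
      rw [h7]
      exact y'.2
    exact (isIntegral_algHom_iff ((fixedField H).val.restrictScalars ℤ)
      (fixedField H).val.injective).1 h8
  · field_simp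
    ring

end

end Pool.Agent.K9h75.BD
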