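import Mathlib
import Pool.Agent.K9h75.BD.Core
import Pool.Agent.Q262.RL.Num3

/-!
# The inequality with high relative degree
-/

set_option autoImplicit false

open NumberField IntermediateField Module

namespace Pool.Agent.K9h75.BD

open Pool.Agent.W738.SAL

section

variable {M : Type} [Field M] [NumberField M] [IsGalois ℚ M]

omit [IsGalois ℚ M] [NumberField M] in
lemma MM_eq {β : ℝ} (hβ : 1 < β) {E : Type} [Field E] [Algebra ℚ E] [FiniteDimensional ℚ E]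
    (α : E) (τ₀ : E →ₐ[ℚ] ℂ) (h0 : τ₀ α = (β : ℂ))
    (hgen : ∀ τ τ' : E →ₐ[ℚ] ℂ, τ α = τ' α → τ = τ')
    (hone : ∀ τ : E →ₐ[ℚ] ℂ, τ α ≠ (β : ℂ) → ‖τ α‖ ≤ 1) :
    Pool.Agent.Q262.RL.MM α = β := by
  classical
  have h1 : ∀ τ : E →ₐ[ℚ] ℂ, τ ≠ τ₀ → max 1 ‖τ α‖ = 1 := by
    intro τ hτ
    apply max_eq_left
    apply hone
    intro h
    exact hτ (hgen _ _ (h.trans h0.symm))
  unfold Pool.Agent.Q262.RL.MM
  rw [Fintype.prod_eq_single τ₀ h1, h0, Complex.norm_real, Real.norm_eq_abs,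
    abs_of_pos (by linarith), max_eq_right hβ.le]

theorem log_ineq (ι : M →ₐ[ℚ] ℂ) {β : ℝ} (hβ : 1 < β) (x : 𝓞 M) (hx : ι (x : M) = (β : ℂ))
    (hone : ∀ z : ℂ, Polynomial.aeval z (minpoly ℚ (x : M)) = 0 → z ≠ (β : ℂ) → ‖z‖ ≤ 1)
    (H : Subgroup (M ≃ₐ[ℚ] M)) (hH : MulAction.stabilizer (M ≃ₐ[ℚ] M) x ≤ H) {c : ℕ}
    (hc : c * H.index = (minpoly ℚ (x : M)).natDegree) {p d k : ℕ} (hp : p.Prime) (hd : 0 < d)
    {φ : fixedField H →ₐ[ℚ] fixedField H} (hφ : Pool.Agent.Q262.RL.Fr p d k φ) :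
    (H.index : ℝ) * Real.log p ≤ 10 * (p : ℝ) ^ (k + 2 * d) *
      Real.exp (√(3 * (d * Real.log p) * Real.log c)) * Real.log β := by
  classical
  have h1 : (ℚ⟮(x : M)⟯).fixingSubgroup ≤ H := fun γ hγ => hH (by
    rw [MulAction.mem_stabilizer_iff]
    apply RingOfIntegers.coe_injective
    exact (mem_fixing_adjoin _ _).1 hγ)
  have hFE : fixedField H ≤ ℚ⟮(x : M)⟯ := by
    calc fixedField H ≤ fixedField (ℚ⟮(x : M)⟯).fixingSubgroup := fixedField_antitone h1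
      _ = ℚ⟮(x : M)⟯ := IsGalois.fixedField_fixingSubgroup _
  let a : Algebra (fixedField H) ℚ⟮(x : M)⟯ := (inclusion hFE).toRingHom.toAlgebra
  have st : IsScalarTower ℚ (fixedField H) ℚ⟮(x : M)⟯ :=
    IsScalarTower.of_algebraMap_eq (fun r => ((inclusion hFE).commutes r).symm)
  have hint : IsIntegral ℚ (x : M) := Algebra.IsIntegral.isIntegral _
  have hE : finrank ℚ ℚ⟮(x : M)⟯ = (minpoly ℚ (x : M)).natDegree := adjoin.finrank hint
  have hF : finrank ℚ (fixedField H) = H.index := by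
    have e1 : finrank (fixedField H) M = Nat.card H := finrank_fixedField_eq_card H
    have e2 : finrank ℚ (fixedField H) * finrank (fixedField H) M = finrank ℚ M :=
      Module.finrank_mul_finrank ℚ (fixedField H) M
    have e3 : Nat.card (M ≃ₐ[ℚ] M) = finrank ℚ M := IsGalois.card_aut_eq_finrank ℚ M
    have e4 : Nat.card H * H.index = Nat.card (M ≃ₐ[ℚ] M) := Subgroup.card_mul_index H
    have e5 : 0 < Nat.card H := Nat.card_pos
    rw [e1, ← e3, ← e4, mul_comm] at e2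
    exact Nat.eq_of_mul_eq_mul_left e5 e2
  have hdimF : FiniteDimensional ℚ (fixedField H) := inferInstance
  have hdimFE : FiniteDimensional (fixedField H) ℚ⟮(x : M)⟯ :=
    FiniteDimensional.right ℚ (fixedField H) ℚ⟮(x : M)⟯
  have hcc : finrank (fixedField H) ℚ⟮(x : M)⟯ = c := by
    have e1 : finrank ℚ (fixedField H) * finrank (fixedField H) ℚ⟮(x : M)⟯ =
        finrank ℚ ℚ⟮(x : M)⟯ := Module.finrank_mul_finrank ℚ (fixedField H) ℚ⟮(x : M)⟯
    rw [hE, hF, ← hc, mul_comm c] at e1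
    have e2 : 0 < H.index := by
      rw [← hF]
      exact finrank_pos
    exact Nat.eq_of_mul_eq_mul_left e2 e1
  have hc1 : (1 : ℝ) ≤ c := by
    have : 0 < c := by
      rw [← hcc]
      exact finrank_pos
    exact_mod_cast this
  have hmin : Polynomial.aeval (AdjoinSimple.gen ℚ (x : M)) (minpoly ℚ (x : M)) = 0 :=
    aeval_gen_minpoly ℚ (x : M)
  have hMM : Pool.Agent.Q262.RL.MM (AdjoinSimple.gen ℚ (x : M)) = β := by
    refine MM_eq hβ (AdjoinSimple.gen ℚ (x : M))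
      ((ι : M →+* ℂ).comp (algebraMap ℚ⟮(x : M)⟯ M)).toRatAlgHom ?_ ?_ ?_
    · show ι (algebraMap ℚ⟮(x : M)⟯ M (AdjoinSimple.gen ℚ (x : M))) = (β : ℂ)
      rw [AdjoinSimple.algebraMap_gen, hx]
    · intro τ τ' h
      refine adjoin_algHom_ext ℚ ?_
      intro y hy
      obtain rfl : y = (x : M) := hy
      exact h
    · intro τ hτ
      apply hone _ _ hτ
      rw [Polynomial.aeval_algHom_apply, hmin, map_zero]
  have hα0 : AdjoinSimple.gen ℚ (x : M) ≠ 0 := by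
    intro h
    have e1 := congrArg (fun w : ℚ⟮(x : M)⟯ => ι (w : M)) h
    simp only [AdjoinSimple.coe_gen, hx, ZeroMemClass.coe_zero, map_zero] at e1
    have e2 : β = 0 := by exact_mod_cast e1
    linarith
  have hroot : ∀ n : ℕ, 0 < n → (AdjoinSimple.gen ℚ (x : M)) ^ n ≠ 1 := by
    intro n hn h
    have e1 := congrArg (fun w : ℚ⟮(x : M)⟯ => ι (w : M)) h
    simp only [SubmonoidClass.coe_pow, AdjoinSimple.coe_gen, map_pow, hx, OneMemClass.coe_one,
      map_one] at e1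
    have e2 : β ^ n = 1 := by exact_mod_cast e1
    have e3 := one_lt_pow₀ hβ hn.ne'
    linarith
  have hαi : IsIntegral ℤ (AdjoinSimple.gen ℚ (x : M)) := by
    have e1 : IsIntegral ℤ ((ℚ⟮(x : M)⟯).val (AdjoinSimple.gen ℚ (x : M))) := by
      rw [show (ℚ⟮(x : M)⟯).val (AdjoinSimple.gen ℚ (x : M)) = (x : M) from
        AdjoinSimple.coe_gen ℚ (x : M)]
      exact x.2
    exact (isIntegral_algHom_iff ((ℚ⟮(x : M)⟯).val.restrictScalars ℤ)
      (ℚ⟮(x : M)⟯).val.injective).1 e1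
  have hp2 : (2 : ℝ) ≤ p := by exact_mod_cast hp.two_le
  have hmain := Pool.Agent.Q262.RL.choose_J (D := (H.index : ℝ)) (m := (c : ℝ))
    (B := Real.log β) (Nat.cast_nonneg _) hc1 (Real.log_nonneg hβ.le) hp2 (f := d) (a := k) hd
    (fun J hJ => by
      have e1 := Pool.Agent.Q262.RL.main hp hd hφ 0 hJ (finrank (fixedField H) ℚ⟮(x : M)⟯)
        ℚ⟮(x : M)⟯ (AdjoinSimple.gen ℚ (x : M)) rfl hαi hα0 hroot
      rw [hMM, hF, hcc] at e1
      simpa using e1)
  exact hmain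

end

end Pool.Agent.K9h75.BD
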