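import Mathlib

/-!
# Numerical part, high relative degree
-/

set_option autoImplicit false

namespace Pool.Agent.K9h75.BD

lemma exists_k {r d s : ℕ} (hr2 : 2 ≤ r) (hd : 0 < d) (hs : 0 < s) :
    ∃ k : ℕ, d * (r - 1) * s ≤ r ^ k ∧ r ^ k ≤ r * (d * (r - 1) * s) := by
  have h1 : 1 ≤ d * (r - 1) * s := Nat.mul_pos (Nat.mul_pos hd (by omega)) hs
  refine ⟨Nat.clog r (d * (r - 1) * s), Nat.le_pow_clog (by omega) _, ?_⟩
  rcases Nat.lt_or_ge 1 (d * (r - 1) * s) with h3 | h3
  · have h4 := Nat.pow_pred_clog_lt_self (b := r) (by omega) h3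
    have h5 : 0 < Nat.clog r (d * (r - 1) * s) := Nat.clog_pos (by omega) h3
    obtain ⟨j, hj⟩ : ∃ j, Nat.clog r (d * (r - 1) * s) = j + 1 := ⟨_, (Nat.succ_pred h5.ne').symm⟩
    rw [hj] at h4 ⊢
    rw [Nat.pred_succ] at h4
    rw [pow_succ, mul_comm]
    exact Nat.mul_le_mul_left _ h4.le
  · have h6 : d * (r - 1) * s = 1 := le_antisymm h3 h1
    rw [h6, Nat.clog_one_right, pow_zero]
    omega

/-- the bound for the index -/
noncomputable def bd (d q D : ℕ) (β : ℝ) : ℝ :=
  15 * d * (q : ℝ) ^ (2 * d + 2) * Real.exp (√(3 * (d * Real.log q) * Real.log D)) * Real.log β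

theorem num2 {β : ℝ} (hβ : 1 < β) {m s r c d D p q n : ℕ} (hc : c ≤ D) (hn : c * m = n)
    (hn0 : 0 < n) (hs : 0 < s) (hsm : s * s ≤ m) (hr : r = p ∨ r = q) (hp : 2 ≤ p)
    (hpq : p ≤ q) (hd : 0 < d)
    (h : ∀ k : ℕ, d * (r - 1) * s ≤ r ^ k → (m : ℝ) * Real.log r ≤ 10 * (r : ℝ) ^ (k + 2 * d) *
      Real.exp (√(3 * (d * Real.log r) * Real.log c)) * Real.log β) :
    (n : ℝ) ≤ D * bd d q D β ^ 2 := by
  have hpr : p ≤ r := by rcases hr with rfl | rfl <;> omega
  have hrq : r ≤ q := by rcases hr with rfl | rfl <;> omega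
  have hr2 : 2 ≤ r := hp.trans hpr
  have hc0 : 0 < c := Nat.pos_of_ne_zero (by rintro rfl; omega)
  obtain ⟨k, hk1, hk2⟩ := exists_k hr2 hd hs
  have h3 := h k hk1
  have hr2' : (2 : ℝ) ≤ r := by exact_mod_cast hr2
  have hrq' : (r : ℝ) ≤ q := by exact_mod_cast hrq
  have hc' : (1 : ℝ) ≤ c := by exact_mod_cast hc0
  have hcD' : (c : ℝ) ≤ D := by exact_mod_cast hc
  have hs' : (0 : ℝ) < s := by exact_mod_cast hs
  have hd' : (0 : ℝ) < d := by exact_mod_cast hd
  have hlb : 0 < Real.log β := Real.log_pos hβ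
  have hlr : 10 ≤ 15 * Real.log r := by
    have h4 : Real.log 2 ≤ Real.log r := Real.log_le_log (by norm_num) hr2'
    have := Real.log_two_gt_d9
    linarith
  have hlr0 : 0 < Real.log r := by linarith
  have hlc0 : 0 ≤ Real.log c := Real.log_nonneg hc'
  have hexp : Real.exp (√(3 * (d * Real.log r) * Real.log c)) ≤
      Real.exp (√(3 * (d * Real.log q) * Real.log D)) := by
    apply Real.exp_le_exp.2
    apply Real.sqrt_le_sqrt
    have h4 : Real.log r ≤ Real.log q := Real.log_le_log (by linarith) hrq'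
    have h5 : Real.log c ≤ Real.log D := Real.log_le_log (by linarith) hcD'
    have h6 : 0 ≤ Real.log q := hlr0.le.trans h4
    apply mul_le_mul _ h5 hlc0 (by positivity)
    apply mul_le_mul_of_nonneg_left _ (by norm_num)
    exact mul_le_mul_of_nonneg_left h4 hd'.le
  have hpow : (r : ℝ) ^ (k + 2 * d) ≤ d * (q : ℝ) ^ (2 * d + 2) * s := by
    have h4 : (r : ℝ) ^ k ≤ r * (d * r * s) := by
      have h5 : r ^ k ≤ r * (d * r * s) := hk2.trans (Nat.mul_le_mul_left _
        (Nat.mul_le_mul_right _ (Nat.mul_le_mul_left _ (Nat.sub_le _ _))))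
      exact_mod_cast h5
    calc (r : ℝ) ^ (k + 2 * d) = (r : ℝ) ^ k * (r : ℝ) ^ (2 * d) := pow_add _ _ _
      _ ≤ (r * (d * r * s)) * (r : ℝ) ^ (2 * d) := mul_le_mul_of_nonneg_right h4 (by positivity)
      _ = d * (r : ℝ) ^ (2 * d + 2) * s := by ring
      _ ≤ d * (q : ℝ) ^ (2 * d + 2) * s := by
        apply mul_le_mul_of_nonneg_right _ hs'.le
        apply mul_le_mul_of_nonneg_left _ hd'.le
        exact pow_le_pow_left₀ (by linarith) hrq' _
  have hq0 : (0 : ℝ) < q := by linarith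
  have hbd0 : 0 ≤ bd d q D β := by
    unfold bd
    positivity
  have h7 : (m : ℝ) ≤ bd d q D β * s := by
    have h8 : (m : ℝ) * Real.log r ≤ (bd d q D β * s) * Real.log r := by
      calc (m : ℝ) * Real.log r ≤ 10 * (r : ℝ) ^ (k + 2 * d) *
            Real.exp (√(3 * (d * Real.log r) * Real.log c)) * Real.log β := h3
        _ ≤ (15 * Real.log r) * (d * (q : ℝ) ^ (2 * d + 2) * s) *
            Real.exp (√(3 * (d * Real.log q) * Real.log D)) * Real.log β := by
          apply mul_le_mul_of_nonneg_right _ hlb.le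
          apply mul_le_mul _ hexp (Real.exp_pos _).le (by positivity)
          apply mul_le_mul hlr hpow (by positivity) (by positivity)
        _ = (bd d q D β * s) * Real.log r := by
          unfold bd
          ring
    exact le_of_mul_le_mul_right h8 hlr0
  have hsm' : (s : ℝ) * s ≤ m := by exact_mod_cast hsm
  have h9 : (s : ℝ) ≤ bd d q D β := by
    have : (s : ℝ) * s ≤ bd d q D β * s := hsm'.trans h7
    exact le_of_mul_le_mul_right this hs'
  have h10 : (m : ℝ) ≤ bd d q D β ^ 2 := by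
    calc (m : ℝ) ≤ bd d q D β * s := h7
      _ ≤ bd d q D β * bd d q D β := mul_le_mul_of_nonneg_left h9 hbd0
      _ = bd d q D β ^ 2 := (sq _).symm
  calc (n : ℝ) = c * m := by rw [← hn]; push_cast; ring
    _ ≤ D * bd d q D β ^ 2 := mul_le_mul hcD' h10 (Nat.cast_nonneg _) (by linarith)

end Pool.Agent.K9h75.BD
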