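import Mathlib
import Pool.Agent.K9h75.BD.Frob
import Pool.Agent.K9h75.BD.LogIneq
import Pool.Agent.K9h75.BD.Num2

/-!
# The main inequality with two primes, high relative degree
-/

set_option autoImplicit false

open NumberField IntermediateField

namespace Pool.Agent.K9h75.BD

open Pool.Agent.Q98.SG Pool.Agent.W738.SAL

section

variable {M : Type} [Field M] [NumberField M] [IsGalois ℚ M]

theorem core3 (ι : M →ₐ[ℚ] ℂ) {β : ℝ} (hβ : 1 < β) (x : 𝓞 M)
    (hx : ι (x : M) = (β : ℂ))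
    (hone : ∀ z : ℂ, Polynomial.aeval z (minpoly ℚ (x : M)) = 0 → z ≠ (β : ℂ) → ‖z‖ ≤ 1)
    (Δ : Subgroup (M ≃ₐ[ℚ] M)) (hΔ : Δ.Normal) {d : ℕ} (hd : 0 < d)
    (hcen : ∀ σ τ : M ≃ₐ[ℚ] M, σ ^ d * τ * (τ * σ ^ d)⁻¹ ∈ Δ) {p q : ℕ} (hp : p.Prime)
    (hq : q.Prime) (hpq : p ≠ q) (hpd : ¬ p ∣ d) (hqd : ¬ q ∣ d) :
    ∃ (m s r : ℕ) (Z : Finset (𝓞 M)), (∀ z ∈ Z, ∃ δ ∈ Δ, δ • x = z) ∧
      Z.card * m = (minpoly ℚ (x : M)).natDegree ∧ 0 < s ∧ s * s ≤ m ∧ (r = p ∨ r = q) ∧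
      ∀ k : ℕ, d * (r - 1) * s ≤ r ^ k →
        (m : ℝ) * Real.log r ≤ 10 * (r : ℝ) ^ (k + 2 * d) *
          Real.exp (√(3 * (d * Real.log r) * Real.log Z.card)) * Real.log β := by
  classical
  set H : Subgroup (M ≃ₐ[ℚ] M) := Δ ⊔ MulAction.stabilizer (M ≃ₐ[ℚ] M) x with hHdef
  have hH : MulAction.stabilizer (M ≃ₐ[ℚ] M) x ≤ H := le_sup_right
  have hΔH : Δ ≤ H := le_sup_left
  have hnc : H.normalCore.Normal := H.normalCore_normal
  have hΔK : Δ ≤ H.normalCore := (Subgroup.normal_le_normalCore).2 hΔH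
  have hgal : IsGalois ℚ (fixedField H.normalCore) :=
    IsGalois.of_fixedField_normal_subgroup (K := ℚ) (L := M) H.normalCore
  set Z : Finset (𝓞 M) :=
    (Finset.univ.filter (fun h : M ≃ₐ[ℚ] M => h ∈ H)).image (fun h => h • x) with hZdef
  have hZ : ∀ z, z ∈ Z ↔ ∃ h ∈ H, h • x = z := by
    intro z
    rw [hZdef, Finset.mem_image]
    constructor
    · rintro ⟨h, hh, rfl⟩
      exact ⟨h, (Finset.mem_filter.1 hh).2, rfl⟩
    · rintro ⟨h, hh, rfl⟩
      exact ⟨h, Finset.mem_filter.2 ⟨Finset.mem_univ _, hh⟩, rfl⟩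
  have hZΔ : ∀ z ∈ Z, ∃ δ ∈ Δ, δ • x = z := by
    intro z hz
    obtain ⟨h, hh, rfl⟩ := (hZ z).1 hz
    obtain ⟨δ, hδ, s, hs, rfl⟩ := Subgroup.mem_sup_of_normal_left.1 hh
    refine ⟨δ, hδ, ?_⟩
    rw [mul_smul, MulAction.mem_stabilizer_iff.1 hs]
  set r0 : (M ≃ₐ[ℚ] M) →* (fixedField H.normalCore ≃ₐ[ℚ] fixedField H.normalCore) :=
    AlgEquiv.restrictNormalHom (fixedField H.normalCore) with hr0
  have hsurj : Function.Surjective r0 := AlgEquiv.restrictNormalHom_surjective (F := ℚ)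
    (K₁ := fixedField H.normalCore) M
  have hker : r0.ker = H.normalCore := by
    exact (IntermediateField.restrictNormalHom_ker (fixedField H.normalCore)).trans
      (fixingSubgroup_fixedField _)
  have hcen0 : ∀ σ τ : fixedField H.normalCore ≃ₐ[ℚ] fixedField H.normalCore,
      σ ^ d * τ = τ * σ ^ d := by
    intro σ τ
    obtain ⟨σ', rfl⟩ := hsurj σ
    obtain ⟨τ', rfl⟩ := hsurj τ
    have h1 : σ' ^ d * τ' * (τ' * σ' ^ d)⁻¹ ∈ r0.ker := by
      rw [hker]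
      exact hΔK (hcen σ' τ')
    rw [MonoidHom.mem_ker, map_mul, map_inv, mul_inv_eq_one] at h1
    rw [← map_pow, ← map_mul, ← map_mul]
    exact h1
  obtain ⟨Wp, hWp1, hWp2, hWp3⟩ := ram_bound (L := fixedField H.normalCore) hp hd hpd hcen0
  obtain ⟨Wq, hWq1, hWq2, hWq3⟩ := ram_bound (L := fixedField H.normalCore) hq hd hqd hcen0
  have hkerH : r0.ker ≤ H := by
    rw [hker]
    exact H.normalCore_le
  have hU : (H.map r0).normalCore = ⊥ := by
    have h1 : ((H.map r0).normalCore.comap r0) ≤ H := by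
      have h2 : (H.map r0).comap r0 = H := Subgroup.comap_map_eq_self hkerH
      calc ((H.map r0).normalCore.comap r0) ≤ (H.map r0).comap r0 :=
            Subgroup.comap_mono (Subgroup.normalCore_le _)
        _ = H := h2
    have h3 : ((H.map r0).normalCore.comap r0).Normal :=
      Subgroup.Normal.comap (Subgroup.normalCore_normal _) r0
    have h4 : ((H.map r0).normalCore.comap r0) ≤ r0.ker := by
      rw [hker]
      exact (Subgroup.normal_le_normalCore).2 h1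
    rw [eq_bot_iff]
    intro g hg
    obtain ⟨g', rfl⟩ := hsurj g
    have h5 : g' ∈ r0.ker := h4 (Subgroup.mem_comap.2 hg)
    rw [MonoidHom.mem_ker] at h5
    rw [Subgroup.mem_bot]
    exact h5
  have hidx : (H.map r0).index = H.index := Subgroup.index_map_eq H hsurj hkerH
  have hcard := central_card (H.map r0) Wp Wq hU hWp1 hWq1 hp hq hpq hWp2 hWq2
  rw [hidx] at hcard
  have hdeg := degree_eq hH hZ
  rcases le_total (Nat.card Wp) (Nat.card Wq) with h | h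
  · refine ⟨H.index, Nat.card Wp, p, Z, hZΔ, hdeg, Nat.card_pos,
      (Nat.mul_le_mul_left _ h).trans hcard, Or.inl rfl, fun k hk => ?_⟩
    obtain ⟨φ, hφ⟩ := fr_exists H hp hcen0 (hWp3 _ hk)
    exact log_ineq ι hβ x hx hone H hH hdeg hp hd hφ
  · refine ⟨H.index, Nat.card Wq, q, Z, hZΔ, hdeg, Nat.card_pos,
      (Nat.mul_le_mul_right _ h).trans hcard, Or.inr rfl, fun k hk => ?_⟩
    obtain ⟨φ, hφ⟩ := fr_exists H hq hcen0 (hWq3 _ hk)
    exact log_ineq ι hβ x hx hone H hH hdeg hq hd hφ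

end

end Pool.Agent.K9h75.BD
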