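import Mathlib
import Pool.Agent.K9h75.BD.Tame
import Pool.Agent.Q98.SG.M

/-!
# The inertia group: local conditions
-/

set_option autoImplicit false

namespace Pool.Agent.K9h75.BD

open Pool.Agent.Q98.SG

section

variable {S : Type*} [CommRing S] [IsDedekindDomain S] {G : Type*} [Group G]
  [MulSemiringAction G S] {P : Ideal S} [hPp : P.IsPrime]

/-- the tame character: its kernel is a `p`-group, and its values on elements commuting with a
Frobenius element are roots of unity of order dividing `p - 1` -/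
theorem char_facts [Finite G] [FaithfulSMul G S] (hP0 : P ≠ ⊥) [Finite (S ⧸ P)] {p : ℕ}
    (hp : p.Prime) (hpP : (p : S) ∈ P) (φ : G) (hφ : ∀ x : S, x ^ p - φ • x ∈ P) :
    ∃ θ' : P.inertia G →* (S ⧸ P)ˣ, (∀ w : P.inertia G, θ' w = 1 → ∃ a : ℕ, (w : G) ^ (p ^ a) = 1) ∧
      ∀ y : P.inertia G, (y : G) * φ = φ * (y : G) → (θ' y) ^ (p - 1) = 1 := by
  classical
  obtain ⟨π, hπ, hπ2, hgen, θ, hθ⟩ := tame_char' (G := G) (P := P) hP0
  have hmax : P.IsMaximal := hPp.isMaximal hP0
  let _ : Field (S ⧸ P) := Ideal.Quotient.field P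
  have hker0 : ∀ w : P.inertia G, θ w = 1 → (w : G) • π - π ∈ P ^ 2 := by
    intro w hw
    obtain ⟨a, e, he, h⟩ := hgen _ (smul_mem w.2 hπ)
    have h1 : (w : G) • π - π * a ∈ P ^ 2 := by
      rw [← h, add_sub_cancel_left]; exact he
    have h2 := hθ w a h1
    rw [hw, ← map_one (Ideal.Quotient.mk P), eq_comm, Ideal.Quotient.eq] at h2
    have h3 : (w : G) • π - π = ((w : G) • π - π * a) + π * (a - 1) := by ring
    rw [h3]
    refine Ideal.add_mem _ h1 ?_
    rw [pow_two]
    exact Ideal.mul_mem_mul hπ h2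
  -- kernel elements have `p`-power order
  have hker : ∀ w : P.inertia G, θ w = 1 → ∃ a : ℕ, (w : G) ^ (p ^ a) = 1 := by
    intro w hw
    have hw0 : 0 < orderOf (w : G) := orderOf_pos _
    obtain ⟨a, m, hm, hab⟩ := Nat.exists_eq_pow_mul_and_not_dvd hw0.ne' p hp.ne_one
    refine ⟨a, ?_⟩
    have h3 : θ (w ^ (p ^ a)) = 1 := by rw [map_pow, hw, one_pow]
    have h4 := hker0 _ h3
    have h5 : (((w ^ (p ^ a) : P.inertia G) : G)) = (w : G) ^ (p ^ a) := by
      rw [Subgroup.coe_pow]
    rw [h5] at h4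
    have h6 : (w : G) ^ (p ^ a) ∈ P.inertia G := Subgroup.pow_mem _ w.2 _
    refine tame_trivial h6 hπ hgen h4 (m := m) ?_ ?_
    · rw [← pow_mul, ← hab]
      exact pow_orderOf_eq_one _
    · intro h7
      have h8 : IsCoprime (p : ℤ) (m : ℤ) :=
        Nat.isCoprime_iff_coprime.2 ((Nat.Prime.coprime_iff_not_dvd hp).2 hm)
      obtain ⟨x, y, hxy⟩ := h8
      apply hPp.ne_top
      rw [Ideal.eq_top_iff_one]
      have h9 : (1 : S) = (x : S) * (p : S) + (y : S) * (m : S) := by
        have := congrArg (Int.cast : ℤ → S) hxy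
        push_cast at this
        exact this.symm
      rw [h9]
      exact P.add_mem (P.mul_mem_left _ hpP) (P.mul_mem_left _ h7)
  -- Frobenius preserves `P`
  have hφP : ∀ x ∈ P, φ • x ∈ P := by
    intro x hx
    have h1 := P.sub_mem (P.pow_mem_of_mem hx p hp.pos) (hφ x)
    rwa [sub_sub_cancel] at h1
  have hφπ : φ • π ∉ P ^ (1 + 1) := by
    intro h
    apply hπ2
    have h1 : ∀ n : ℕ, φ ^ n • (φ • π) ∈ P ^ (1 + 1) := by
      intro n
      induction n with
      | zero => simpa using h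
      | succ n ih =>
        rw [pow_succ' φ n, mul_smul]
        exact stab_pow hφP ih
    have h2 := h1 (orderOf φ - 1)
    rw [← mul_smul, ← pow_succ, Nat.sub_add_cancel (orderOf_pos φ), pow_orderOf_eq_one,
      one_smul] at h2
    exact h2
  -- the values of the tame character
  have hval : ∀ y : P.inertia G, (y : G) * φ = φ * (y : G) → (θ y) ^ (p - 1) = 1 := by
    intro y hcomm
    obtain ⟨a, e, he, h⟩ := hgen _ (smul_mem y.2 hπ)
    have h1 : (y : G) • π - π * a ∈ P ^ 2 := by
      rw [← h, add_sub_cancel_left]; exact he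
    have h2 := hθ y a h1
    obtain ⟨c, e₁, he₁, hc⟩ := hgen _ (hφP π hπ)
    have h3 : (y : G) • (φ • π) - (φ • π) * a ∈ P ^ 2 := by
      have h30 : (y : G) • (φ • π) - (φ • π) * a =
          π * a * ((y : G) • c - c) + e * ((y : G) • c) + (y : G) • e₁ - e₁ * a := by
        rw [← hc, smul_add, smul_mul', ← h]
        ring
      rw [h30]
      refine Ideal.sub_mem _ (Ideal.add_mem _ (Ideal.add_mem _ ?_ (Ideal.mul_mem_right _ _ he))
        (smul_mem_pow y.2 he₁)) (Ideal.mul_mem_right _ _ he₁)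
      rw [pow_two]
      exact Ideal.mul_mem_mul (Ideal.mul_mem_right _ _ hπ) (inert_smul y.2 _)
    have h4 : φ • ((y : G) • π) - (φ • π) * a ^ p ∈ P ^ 2 := by
      have h40 : φ • ((y : G) • π) - (φ • π) * a ^ p =
          -((φ • π) * (a ^ p - φ • a)) + φ • e := by
        rw [← h, smul_add, smul_mul']
        ring
      rw [h40]
      refine Ideal.add_mem _ ((Ideal.neg_mem_iff _).2 ?_) (stab_pow hφP he)
      rw [pow_two]
      exact Ideal.mul_mem_mul (hφP π hπ) (hφ a)
    have h5 : φ • ((y : G) • π) = (y : G) • (φ • π) := by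
      rw [← mul_smul, ← mul_smul, hcomm]
    have h6 : (φ • π) * (a ^ p - a) ∈ P ^ (1 + 1) := by
      have h60 : (φ • π) * (a ^ p - a) =
          ((y : G) • (φ • π) - (φ • π) * a) - (φ • ((y : G) • π) - (φ • π) * a ^ p) := by
        rw [h5]; ring
      rw [h60]
      exact Ideal.sub_mem _ h3 h4
    have h7 : a ^ p - a ∈ P := Ideal.mem_prime_of_mul_mem_pow hP0 hφπ h6
    have h8 : (Ideal.Quotient.mk P a) ^ p = Ideal.Quotient.mk P a := by
      rw [← map_pow, Ideal.Quotient.eq]
      exact h7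
    have h9 : (Ideal.Quotient.mk P a) ≠ 0 := by
      rw [← h2]
      intro h0
      have h90 : θ y * θ y⁻¹ = 1 := by rw [← map_mul, mul_inv_cancel, map_one]
      rw [h0, zero_mul] at h90
      exact zero_ne_one h90
    rw [h2]
    have h100 : (Ideal.Quotient.mk P a) ^ (p - 1) * (Ideal.Quotient.mk P a) =
        1 * (Ideal.Quotient.mk P a) := by
      rw [← pow_succ, Nat.sub_add_cancel hp.pos, h8, one_mul]
    exact mul_right_cancel₀ h9 h100
  refine ⟨θ.toHomUnits, fun w hw => ?_, fun y hy => ?_⟩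
  · apply hker
    have h1 : ((θ.toHomUnits w : (S ⧸ P)ˣ) : S ⧸ P) = θ w := rfl
    rw [← h1, hw]
    rfl
  · apply Units.ext
    push_cast
    exact hval y hy

/-- if the central elements have index at most `e` in the inertia group, then it has a central
`p`-subgroup of index at most `e (p - 1)` -/
theorem inertia_loc [Finite G] [FaithfulSMul G S] (hP0 : P ≠ ⊥) [Finite (S ⧸ P)] {p : ℕ}
    (hp : p.Prime) (hpP : (p : S) ∈ P) {e : ℕ}
    (hI : Nat.card (P.inertia G) ≤
      e * Nat.card (P.inertia G ⊓ Subgroup.center G : Subgroup G))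
    (φ : G) (hφ : ∀ x : S, x ^ p - φ • x ∈ P) :
    ∃ W : Subgroup G, W ≤ Subgroup.center G ∧ IsPGroup p W ∧
      Nat.card (P.inertia G) ≤ e * (p - 1) * Nat.card W := by
  classical
  obtain ⟨θ', h1, h2⟩ := char_facts (G := G) hP0 hp hpP φ hφ
  have hmax : P.IsMaximal := hPp.isMaximal hP0
  let _ : Field (S ⧸ P) := Ideal.Quotient.field P
  set C : Subgroup G := P.inertia G ⊓ Subgroup.center G with hC
  set ψ : C →* (S ⧸ P)ˣ := θ'.comp (Subgroup.inclusion inf_le_left) with hψ
  have hp1 : p - 1 ≠ 0 := by have := hp.two_le; omega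
  have : NeZero (p - 1) := ⟨hp1⟩
  have hrange : Nat.card ψ.range ≤ p - 1 := by
    have h3 : ψ.range ≤ rootsOfUnity (p - 1) (S ⧸ P) := by
      rintro _ ⟨σ, rfl⟩
      rw [mem_rootsOfUnity]
      apply h2
      exact (Subgroup.mem_center_iff.1 σ.2.2 φ).symm
    have h4 : Nat.card (rootsOfUnity (p - 1) (S ⧸ P)) ≤ p - 1 := card_rootsOfUnity _ _
    exact (Subgroup.card_le_of_le h3).trans h4
  refine ⟨ψ.ker.map C.subtype, ?_, ?_, ?_⟩
  · rintro _ ⟨w, hw, rfl⟩
    exact w.2.2
  · rintro ⟨_, w, hw, rfl⟩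
    obtain ⟨a, ha⟩ := h1 (Subgroup.inclusion inf_le_left w) (MonoidHom.mem_ker.1 hw)
    refine ⟨a, Subtype.ext ?_⟩
    rw [Subgroup.coe_pow]
    exact ha
  · have h3 : Nat.card (ψ.ker.map C.subtype) = Nat.card ψ.ker :=
      Subgroup.card_map_of_injective (Subgroup.subtype_injective _)
    have h4 : Nat.card C ≤ (p - 1) * Nat.card ψ.ker := by
      rw [← Subgroup.card_mul_index ψ.ker, Subgroup.index_ker, mul_comm]
      exact Nat.mul_le_mul_right _ hrange
    rw [h3, mul_assoc]
    exact hI.trans (Nat.mul_le_mul_left _ h4)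

/-- if all `d`-th powers are central and `p` does not divide `d`, then the central elements have
index at most `d` in the inertia group -/
theorem inertia_exp [Finite G] [FaithfulSMul G S] (hP0 : P ≠ ⊥) [Finite (S ⧸ P)] {p : ℕ}
    (hp : p.Prime) (hpP : (p : S) ∈ P) {d : ℕ} (hd : 0 < d) (hdp : ¬ p ∣ d)
    (hcen : ∀ σ τ : G, σ ^ d * τ = τ * σ ^ d) (φ : G) (hφ : ∀ x : S, x ^ p - φ • x ∈ P) :
    Nat.card (P.inertia G) ≤ d * Nat.card (P.inertia G ⊓ Subgroup.center G : Subgroup G) := by
  classical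
  obtain ⟨θ', h1, -⟩ := char_facts (G := G) hP0 hp hpP φ hφ
  have hmax : P.IsMaximal := hPp.isMaximal hP0
  let _ : Field (S ⧸ P) := Ideal.Quotient.field P
  have hpow : ∀ w : G, w ^ d ∈ Subgroup.center G := by
    intro w
    rw [Subgroup.mem_center_iff]
    intro g
    exact (hcen _ g).symm
  have hker : ∀ w : P.inertia G, θ' w = 1 → (w : G) ∈ Subgroup.center G := by
    intro w hw
    obtain ⟨a, ha⟩ := h1 w hw
    have h3 : Nat.Coprime (p ^ a) d := by
      apply Nat.Coprime.pow_left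
      exact (Nat.Prime.coprime_iff_not_dvd hp).2 hdp
    have h4 : IsCoprime ((p ^ a : ℕ) : ℤ) (d : ℤ) := Nat.isCoprime_iff_coprime.2 h3
    obtain ⟨x, y, hxy⟩ := h4
    have h5 : (w : G) = ((w : G) ^ (p ^ a)) ^ x * ((w : G) ^ d) ^ y := by
      rw [← zpow_natCast, ← zpow_natCast, ← zpow_mul, ← zpow_mul, ← zpow_add]
      have : ((p ^ a : ℕ) : ℤ) * x + (d : ℤ) * y = 1 := by rw [← hxy]; ring
      rw [this, zpow_one]
    rw [h5, ha, one_zpow, one_mul]
    exact Subgroup.zpow_mem _ (hpow _) _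
  set C : Subgroup (P.inertia G) := (Subgroup.center G).subgroupOf (P.inertia G) with hC
  have hkC : θ'.ker ≤ C := by
    intro w hw
    rw [hC, Subgroup.mem_subgroupOf]
    exact hker w (MonoidHom.mem_ker.1 hw)
  have hCcard : Nat.card C = Nat.card (P.inertia G ⊓ Subgroup.center G : Subgroup G) := by
    have h3 : C.map (P.inertia G).subtype = (P.inertia G ⊓ Subgroup.center G : Subgroup G) := by
      rw [hC, Subgroup.subgroupOf_map_subtype, inf_comm]
    rw [← h3]
    exact (Subgroup.card_map_of_injective (Subgroup.subtype_injective _)).symm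
  have : NeZero d := ⟨hd.ne'⟩
  -- the power map on the range
  set R : Subgroup (S ⧸ P)ˣ := θ'.range with hR
  set pw : R →* R := powMonoidHom d with hpw
  have hk : Nat.card pw.ker ≤ d := by
    have h3 : Nat.card (pw.ker.map R.subtype) = Nat.card pw.ker :=
      Subgroup.card_map_of_injective (Subgroup.subtype_injective _)
    have h4 : pw.ker.map R.subtype ≤ rootsOfUnity d (S ⧸ P) := by
      rintro _ ⟨w, hw, rfl⟩
      rw [mem_rootsOfUnity]
      have h5 : w ^ d = 1 := MonoidHom.mem_ker.1 hw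
      have h6 := congrArg (fun z : R => (z : (S ⧸ P)ˣ)) h5
      simpa using h6
    have h5 : Nat.card (rootsOfUnity d (S ⧸ P)) ≤ d := card_rootsOfUnity _ _
    rw [← h3]
    exact (Subgroup.card_le_of_le h4).trans h5
  have hr : Nat.card pw.range ≤ Nat.card (C.map θ') := by
    have h3 : Nat.card (pw.range.map R.subtype) = Nat.card pw.range :=
      Subgroup.card_map_of_injective (Subgroup.subtype_injective _)
    rw [← h3]
    apply Subgroup.card_le_of_le
    rintro _ ⟨w, ⟨⟨_, ⟨u, rfl⟩⟩, rfl⟩, rfl⟩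
    refine ⟨u ^ d, ?_, ?_⟩
    · show u ^ d ∈ C
      rw [hC, Subgroup.mem_subgroupOf, Subgroup.coe_pow]
      exact hpow _
    · rw [map_pow]
      rfl
  have hRcard : Nat.card R ≤ d * Nat.card (C.map θ') := by
    rw [← Subgroup.card_mul_index pw.ker, Subgroup.index_ker]
    exact Nat.mul_le_mul hk hr
  have hCmap : Nat.card C = Nat.card θ'.ker * Nat.card (C.map θ') := by
    set χ : C →* (S ⧸ P)ˣ := θ'.comp C.subtype with hχ
    have h3 : χ.range = C.map θ' := by
      rw [hχ, MonoidHom.range_comp, Subgroup.range_subtype]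
    have h4 : Nat.card χ.ker = Nat.card θ'.ker := by
      have h5 : χ.ker.map C.subtype = θ'.ker := by
        ext w
        constructor
        · rintro ⟨v, hv, rfl⟩
          exact hv
        · intro hw
          exact ⟨⟨w, hkC hw⟩, hw, rfl⟩
      rw [← h5]
      exact (Subgroup.card_map_of_injective (Subgroup.subtype_injective _)).symm
    rw [← Subgroup.card_mul_index χ.ker, Subgroup.index_ker, h3, h4]
  rw [← hCcard, hCmap, ← Subgroup.card_mul_index θ'.ker, Subgroup.index_ker]
  calc Nat.card θ'.ker * Nat.card θ'.range ≤ Nat.card θ'.ker * (d * Nat.card (C.map θ')) :=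
        Nat.mul_le_mul_left _ hRcard
    _ = d * (Nat.card θ'.ker * Nat.card (C.map θ')) := by ring

end

end Pool.Agent.K9h75.BD
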