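import Mathlib
import Pool.Agent.K9h75.BD.Loc

/-!
# Local conditions at a prime number for Galois number fields
-/

set_option autoImplicit false

open NumberField
open scoped Pointwise

namespace Pool.Agent.K9h75.BD

open Pool.Agent.Q98.SG

/-- the local condition for the number field `K` at the prime number `r` -/
def LocC (K : Type) [Field K] [NumberField K] (r d e : ℕ) : Prop :=
  ∀ P : Ideal (𝓞 K), P.IsPrime → (r : 𝓞 K) ∈ P →
    (∀ g : K ≃ₐ[ℚ] K, (∀ x ∈ P, g • x ∈ P) → ∀ h : K ≃ₐ[ℚ] K, g ^ d * h = h * g ^ d) ∧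
    Nat.card (P.inertia (K ≃ₐ[ℚ] K)) ≤
      e * Nat.card (P.inertia (K ≃ₐ[ℚ] K) ⊓ Subgroup.center (K ≃ₐ[ℚ] K) : Subgroup (K ≃ₐ[ℚ] K))

section

variable {L : Type} [Field L] [NumberField L] [IsGalois ℚ L]

/-- the ramification index is at most `e (p - 1)` times the order of a central `p`-subgroup -/
theorem ram_loc {p d e : ℕ} (hp : p.Prime) (hloc : LocC L p d e) :
    ∃ W : Subgroup (L ≃ₐ[ℚ] L), W ≤ Subgroup.center (L ≃ₐ[ℚ] L) ∧ IsPGroup p W ∧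
      ∀ m : ℕ, e * (p - 1) * Nat.card W ≤ m →
        (Ideal.span {(p : 𝓞 L)}).radical ^ m ≤ Ideal.span {(p : 𝓞 L)} := by
  classical
  obtain ⟨P, hP, hpP⟩ := exists_prime_above (L := L) hp
  obtain ⟨hP0, hfin⟩ := finQuot hp P hpP
  obtain ⟨s₀, hs₀⟩ := frob_all (L := L) hp
  obtain ⟨s, -, hs⟩ := hs₀ P hP hpP
  have : FaithfulSMul (L ≃ₐ[ℚ] L) (𝓞 L) :=
    (inferInstance : IsGaloisGroup (L ≃ₐ[ℚ] L) ℤ (𝓞 L)).faithful
  obtain ⟨W, hW1, hW2, hW3⟩ := inertia_loc (G := L ≃ₐ[ℚ] L) hP0 hp hpP (hloc P hP hpP).2 s hs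
  refine ⟨W, hW1, hW2, fun m hm => ?_⟩
  exact ramLe_of (L := L) hp (m := m) (fun Q hQ hpQ => by
    rw [ram_eq hp P Q hP hpP hQ hpQ]
    exact hW3.trans hm)

/-- the central power of Frobenius -/
theorem frob_loc {p d e : ℕ} (hp : p.Prime) (hloc : LocC L p d e) :
    ∃ σ : L ≃ₐ[ℚ] L, (∀ τ : L ≃ₐ[ℚ] L, σ * τ = τ * σ) ∧ ∀ T : 𝓞 L,
      T ^ (p ^ d) - σ • T ∈ (Ideal.span {(p : 𝓞 L)}).radical := by
  classical
  obtain ⟨s₀, hs₀⟩ := frob_all (L := L) hp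
  obtain ⟨P, hP, hpP⟩ := exists_prime_above (L := L) hp
  have hcen : ∀ τ : L ≃ₐ[ℚ] L, s₀ ^ d * τ = τ * s₀ ^ d := by
    obtain ⟨s, hs, hx⟩ := hs₀ P hP hpP
    obtain ⟨g, hg⟩ := isConj_iff.1 hs
    have h1 : ∀ x ∈ P, s • x ∈ P := by
      intro x hxP
      have h2 := P.sub_mem (P.pow_mem_of_mem hxP p hp.pos) (hx x)
      rwa [sub_sub_cancel] at h2
    have h3 := (hloc P hP hpP).1 s h1
    have h4 : s₀ ^ d = s ^ d := by
      rw [← hg, conj_pow, ← h3, mul_assoc, mul_inv_cancel, mul_one]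
    intro τ
    rw [h4]
    exact h3 τ
  refine ⟨s₀ ^ d, hcen, fun T => ?_⟩
  rw [Ideal.radical_eq_sInf, Ideal.mem_sInf]
  rintro J ⟨hJ1, hJ2⟩
  have hJp : (p : 𝓞 L) ∈ J := hJ1 (Ideal.subset_span rfl)
  obtain ⟨s, hs, hx⟩ := hs₀ J hJ2 hJp
  have hpow : s ^ d = s₀ ^ d := by
    obtain ⟨g, hg⟩ := isConj_iff.1 hs
    have h1 : g * s ^ d * g⁻¹ = s₀ ^ d := by rw [← conj_pow, hg]
    have h2 : s ^ d = g⁻¹ * s₀ ^ d * g := by rw [← h1]; group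
    rw [h2, ← hcen, mul_assoc, inv_mul_cancel, mul_one]
  rw [← hpow]
  have key : ∀ k : ℕ, T ^ (p ^ k) - s ^ k • T ∈ J := by
    intro k
    induction k with
    | zero => simp
    | succ k ih =>
      have h1 := hx (s ^ k • T)
      have h2 : (T ^ (p ^ k)) ^ p - (s ^ k • T) ^ p ∈ J := by
        obtain ⟨w, hw⟩ := sub_dvd_pow_sub_pow (T ^ (p ^ k)) (s ^ k • T) p
        rw [hw]
        exact J.mul_mem_right _ ih
      have h3 : T ^ (p ^ (k + 1)) - s ^ (k + 1) • T =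
          ((T ^ (p ^ k)) ^ p - (s ^ k • T) ^ p) + ((s ^ k • T) ^ p - s • s ^ k • T) := by
        rw [← pow_mul, ← pow_succ, pow_succ' s, mul_smul]
        ring
      rw [h3]
      exact J.add_mem h2 h1
  exact key d

/-- finite exponent modulo the centre implies the local condition -/
theorem locC_of_exp {p d : ℕ} (hp : p.Prime) (hd : 0 < d) (hdp : ¬ p ∣ d)
    (hcen : ∀ σ τ : L ≃ₐ[ℚ] L, σ ^ d * τ = τ * σ ^ d) : LocC L p d d := by
  classical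
  intro P hP hpP
  refine ⟨fun g _ h => hcen g h, ?_⟩
  obtain ⟨hP0, hfin⟩ := finQuot hp P hpP
  obtain ⟨s₀, hs₀⟩ := frob_all (L := L) hp
  obtain ⟨s, -, hs⟩ := hs₀ P hP hpP
  have : FaithfulSMul (L ≃ₐ[ℚ] L) (𝓞 L) :=
    (inferInstance : IsGaloisGroup (L ≃ₐ[ℚ] L) ℤ (𝓞 L)).faithful
  exact inertia_exp (G := L ≃ₐ[ℚ] L) hP0 hp hpP hd hdp hcen s hs

end

end Pool.Agent.K9h75.BD
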