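import Mathlib
import Pool.Agent.K9h75.BD.Frob
import Pool.Agent.K9h75.BD.LogIneq
import Pool.Agent.K9h75.BD.NFLoc
import Pool.Agent.K9h75.BD.Num2

/-!
# The main inequality with two primes under local conditions
-/

set_option autoImplicit false

open NumberField IntermediateField

namespace Pool.Agent.K9h75.BD

open Pool.Agent.Q98.SG Pool.Agent.W738.SAL

section

variable {M : Type} [Field M] [NumberField M] [IsGalois ℚ M]

theorem fr_exists' (H : Subgroup (M ≃ₐ[ℚ] M)) {p d k : ℕ} (hp : p.Prime)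
    (σ₀ : fixedField H.normalCore ≃ₐ[ℚ] fixedField H.normalCore)
    (hσc : ∀ τ : fixedField H.normalCore ≃ₐ[ℚ] fixedField H.normalCore, σ₀ * τ = τ * σ₀)
    (hσ₀ : ∀ T : 𝓞 (fixedField H.normalCore),
      T ^ (p ^ d) - σ₀ • T ∈ (Ideal.span {(p : 𝓞 (fixedField H.normalCore))}).radical)
    (hk : (Ideal.span {(p : 𝓞 (fixedField H.normalCore))}).radical ^ (p ^ k) ≤
      Ideal.span {(p : 𝓞 (fixedField H.normalCore))}) :
    ∃ φ : fixedField H →ₐ[ℚ] fixedField H, Pool.Agent.Q262.RL.Fr p d k φ := by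
  classical
  have : Fact p.Prime := ⟨hp⟩
  have hnc : H.normalCore.Normal := H.normalCore_normal
  have hgal : IsGalois ℚ (fixedField H.normalCore) :=
    IsGalois.of_fixedField_normal_subgroup (K := ℚ) (L := M) H.normalCore
  set r0 : (M ≃ₐ[ℚ] M) →* (fixedField H.normalCore ≃ₐ[ℚ] fixedField H.normalCore) :=
    AlgEquiv.restrictNormalHom (fixedField H.normalCore) with hr0
  have hsurj : Function.Surjective r0 := AlgEquiv.restrictNormalHom_surjective (F := ℚ)
    (K₁ := fixedField H.normalCore) M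
  have hker : r0.ker = H.normalCore := by
    exact (IntermediateField.restrictNormalHom_ker (fixedField H.normalCore)).trans
      (fixingSubgroup_fixedField _)
  obtain ⟨σ', hσ'⟩ := hsurj σ₀
  have hfix : ∀ c : M, c ∈ fixedField H → σ' c ∈ fixedField H := by
    intro c hc
    rw [mem_fixedField_iff] at hc ⊢
    intro f hf
    have h1 : f⁻¹ * σ'⁻¹ * f * σ' ∈ r0.ker := by
      rw [MonoidHom.mem_ker, map_mul, map_mul, map_mul, map_inv, map_inv, hσ']
      have h2 : r0 f * σ₀ = σ₀ * r0 f := (hσc (r0 f)).symm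
      rw [mul_assoc, h2]
      group
    have h3 : f⁻¹ * σ'⁻¹ * f * σ' ∈ H := H.normalCore_le (hker ▸ h1)
    have h4 : (f⁻¹ * σ'⁻¹ * f * σ') c = c := hc _ h3
    have h5 : f * σ' = σ' * (f * (f⁻¹ * σ'⁻¹ * f * σ')) := by group
    calc f (σ' c) = (f * σ') c := rfl
      _ = (σ' * (f * (f⁻¹ * σ'⁻¹ * f * σ'))) c := by rw [← h5]
      _ = σ' (f ((f⁻¹ * σ'⁻¹ * f * σ') c)) := rfl
      _ = σ' (f c) := by rw [h4]
      _ = σ' c := by rw [hc f hf]
  let φ : fixedField H →ₐ[ℚ] fixedField H :=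
    (((σ' : M →ₐ[ℚ] M).comp (fixedField H).val).codRestrict (fixedField H).toSubalgebra
      (fun y => hfix _ y.2))
  have hφ : ∀ y : fixedField H, ((φ y : fixedField H) : M) = σ' (y : M) := fun y => rfl
  refine ⟨φ, fun x hx => ?_⟩
  have hxM : IsIntegral ℤ (x : M) :=
    hx.map ((fixedField H).val.restrictScalars ℤ)
  set c : 𝓞 M := ⟨(x : M), hxM⟩ with hcdef
  have hinv : ∀ h ∈ H, h • c = c := by
    intro h hh
    apply RingOfIntegers.coe_injective
    exact (mem_fixedField_iff H _).1 x.2 h hh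
  obtain ⟨c₀, hc₀⟩ := descend (fixedField H.normalCore) c (fun δ hδ => by
    rw [fixingSubgroup_fixedField] at hδ
    exact hinv δ (H.normalCore_le hδ))
  have h1 : (c₀ ^ (p ^ d) - σ₀ • c₀) ^ (p ^ k) ∈
      Ideal.span {(p : 𝓞 (fixedField H.normalCore))} :=
    hk (Ideal.pow_mem_pow (hσ₀ c₀) _)
  have h2 : (c₀ ^ (p ^ d)) ^ (p ^ k) - (σ₀ • c₀) ^ (p ^ k) ∈
      Ideal.span {(p : 𝓞 (fixedField H.normalCore))} := by
    rw [← Ideal.Quotient.eq_zero_iff_mem] at h1 ⊢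
    rw [map_sub, map_pow, map_pow (Ideal.Quotient.mk _) (σ₀ • c₀), mk_sub_pow, ← map_pow]
    exact h1
  obtain ⟨y, hy⟩ := Ideal.mem_span_singleton.1 h2
  have h3 : algebraMap (𝓞 (fixedField H.normalCore)) (𝓞 M) (σ₀ • c₀) = σ' • c := by
    rw [← hc₀]
    apply RingOfIntegers.coe_injective
    show (((σ₀ • c₀ : 𝓞 (fixedField H.normalCore)) : fixedField H.normalCore) : M) =
      σ' ((c₀ : fixedField H.normalCore) : M)
    rw [coe_smul', ← hσ']
    exact AlgEquiv.restrictNormal_commutes σ' (fixedField H.normalCore) _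
  set y' : 𝓞 M := algebraMap (𝓞 (fixedField H.normalCore)) (𝓞 M) y with hy'
  have h4 := congrArg (algebraMap (𝓞 (fixedField H.normalCore)) (𝓞 M)) hy
  rw [map_sub, map_pow, map_pow, map_pow, h3, hc₀, map_mul, map_natCast, ← pow_mul,
    ← pow_add] at h4
  have h5 : (x : M) ^ p ^ (d + k) - (σ' (x : M)) ^ p ^ k = (p : M) * (y' : M) := by
    have h6 : algebraMap (𝓞 M) M (c ^ p ^ (d + k) - (σ' • c) ^ p ^ k) =
        algebraMap (𝓞 M) M ((p : 𝓞 M) * y') := congrArg _ h4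
    rw [map_sub, map_pow, map_pow, map_mul, map_natCast] at h6
    exact h6
  have hp0 : (p : M) ≠ 0 := by exact_mod_cast hp.ne_zero
  have hp0' : (p : fixedField H) ≠ 0 := by exact_mod_cast hp.ne_zero
  refine ⟨(x ^ p ^ (d + k) - (φ x) ^ p ^ k) / p, ?_, ?_⟩
  · have h7 : (((x ^ p ^ (d + k) - (φ x) ^ p ^ k) / p : fixedField H) : M) = (y' : M) := by
      push_cast
      rw [hφ, h5]
      field_simp
    have h8 : IsIntegral ℤ ((fixedField H).val ((x ^ p ^ (d + k) - (φ x) ^ p ^ k) / p)) := by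
      show IsIntegral ℤ (((x ^ p ^ (d + k) - (φ x) ^ p ^ k) / p : fixedField H) : M)
      rw [h7]
      exact y'.2
    exact (isIntegral_algHom_iff ((fixedField H).val.restrictScalars ℤ)
      (fixedField H).val.injective).1 h8
  · field_simp
    ring

theorem core4 (ι : M →ₐ[ℚ] ℂ) {β : ℝ} (hβ : 1 < β) (x : 𝓞 M)
    (hx : ι (x : M) = (β : ℂ))
    (hone : ∀ z : ℂ, Polynomial.aeval z (minpoly ℚ (x : M)) = 0 → z ≠ (β : ℂ) → ‖z‖ ≤ 1)
    (Δ : Subgroup (M ≃ₐ[ℚ] M)) (hΔ : Δ.Normal) {d e : ℕ} (hd : 0 < d) {p q : ℕ} (hp : p.Prime)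
    (hq : q.Prime) (hpq : p ≠ q)
    (hloc : ∀ N : Subgroup (M ≃ₐ[ℚ] M), N.Normal → Δ ≤ N →
      LocC (fixedField N) p d e ∧ LocC (fixedField N) q d e) :
    ∃ (m s r : ℕ) (Z : Finset (𝓞 M)), (∀ z ∈ Z, ∃ δ ∈ Δ, δ • x = z) ∧
      Z.card * m = (minpoly ℚ (x : M)).natDegree ∧ 0 < s ∧ s * s ≤ m ∧ (r = p ∨ r = q) ∧
      ∀ k : ℕ, e * (r - 1) * s ≤ r ^ k →
        (m : ℝ) * Real.log r ≤ 10 * (r : ℝ) ^ (k + 2 * d) *
          Real.exp (√(3 * (d * Real.log r) * Real.log Z.card)) * Real.log β := by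
  classical
  set H : Subgroup (M ≃ₐ[ℚ] M) := Δ ⊔ MulAction.stabilizer (M ≃ₐ[ℚ] M) x with hHdef
  have hH : MulAction.stabilizer (M ≃ₐ[ℚ] M) x ≤ H := le_sup_right
  have hΔH : Δ ≤ H := le_sup_left
  have hnc : H.normalCore.Normal := H.normalCore_normal
  have hΔK : Δ ≤ H.normalCore := (Subgroup.normal_le_normalCore).2 hΔH
  have hgal : IsGalois ℚ (fixedField H.normalCore) :=
    IsGalois.of_fixedField_normal_subgroup (K := ℚ) (L := M) H.normalCore
  set Z : Finset (𝓞 M) :=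
    (Finset.univ.filter (fun h : M ≃ₐ[ℚ] M => h ∈ H)).image (fun h => h • x) with hZdef
  have hZ : ∀ z, z ∈ Z ↔ ∃ h ∈ H, h • x = z := by
    intro z
    rw [hZdef, Finset.mem_image]
    constructor
    · rintro ⟨h, hh, rfl⟩
      exact ⟨h, (Finset.mem_filter.1 hh).2, rfl⟩
    · rintro ⟨h, hh, rfl⟩
      exact ⟨h, Finset.mem_filter.2 ⟨Finset.mem_univ _, hh⟩, rfl⟩
  have hZΔ : ∀ z ∈ Z, ∃ δ ∈ Δ, δ • x = z := by
    intro z hz
    obtain ⟨h, hh, rfl⟩ := (hZ z).1 hz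
    obtain ⟨δ, hδ, s, hs, rfl⟩ := Subgroup.mem_sup_of_normal_left.1 hh
    refine ⟨δ, hδ, ?_⟩
    rw [mul_smul, MulAction.mem_stabilizer_iff.1 hs]
  set r0 : (M ≃ₐ[ℚ] M) →* (fixedField H.normalCore ≃ₐ[ℚ] fixedField H.normalCore) :=
    AlgEquiv.restrictNormalHom (fixedField H.normalCore) with hr0
  have hsurj : Function.Surjective r0 := AlgEquiv.restrictNormalHom_surjective (F := ℚ)
    (K₁ := fixedField H.normalCore) M
  have hker : r0.ker = H.normalCore := by
    exact (IntermediateField.restrictNormalHom_ker (fixedField H.normalCore)).trans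
      (fixingSubgroup_fixedField _)
  obtain ⟨hlocp, hlocq⟩ := hloc H.normalCore hnc hΔK
  obtain ⟨Wp, hWp1, hWp2, hWp3⟩ := ram_loc (L := fixedField H.normalCore) hp hlocp
  obtain ⟨Wq, hWq1, hWq2, hWq3⟩ := ram_loc (L := fixedField H.normalCore) hq hlocq
  have hkerH : r0.ker ≤ H := by
    rw [hker]
    exact H.normalCore_le
  have hU : (H.map r0).normalCore = ⊥ := by
    have h1 : ((H.map r0).normalCore.comap r0) ≤ H := by
      have h2 : (H.map r0).comap r0 = H := Subgroup.comap_map_eq_self hkerH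
      calc ((H.map r0).normalCore.comap r0) ≤ (H.map r0).comap r0 :=
            Subgroup.comap_mono (Subgroup.normalCore_le _)
        _ = H := h2
    have h3 : ((H.map r0).normalCore.comap r0).Normal :=
      Subgroup.Normal.comap (Subgroup.normalCore_normal _) r0
    have h4 : ((H.map r0).normalCore.comap r0) ≤ r0.ker := by
      rw [hker]
      exact (Subgroup.normal_le_normalCore).2 h1
    rw [eq_bot_iff]
    intro g hg
    obtain ⟨g', rfl⟩ := hsurj g
    have h5 : g' ∈ r0.ker := h4 (Subgroup.mem_comap.2 hg)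
    rw [MonoidHom.mem_ker] at h5
    rw [Subgroup.mem_bot]
    exact h5
  have hidx : (H.map r0).index = H.index := Subgroup.index_map_eq H hsurj hkerH
  have hcard := central_card (H.map r0) Wp Wq hU hWp1 hWq1 hp hq hpq hWp2 hWq2
  rw [hidx] at hcard
  have hdeg := degree_eq hH hZ
  rcases le_total (Nat.card Wp) (Nat.card Wq) with h | h
  · refine ⟨H.index, Nat.card Wp, p, Z, hZΔ, hdeg, Nat.card_pos,
      (Nat.mul_le_mul_left _ h).trans hcard, Or.inl rfl, fun k hk => ?_⟩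
    obtain ⟨σ₀, hσc, hσ₀⟩ := frob_loc (L := fixedField H.normalCore) hp hlocp
    obtain ⟨φ, hφ⟩ := fr_exists' H hp σ₀ hσc hσ₀ (hWp3 _ hk)
    exact log_ineq ι hβ x hx hone H hH hdeg hp hd hφ
  · refine ⟨H.index, Nat.card Wq, q, Z, hZΔ, hdeg, Nat.card_pos,
      (Nat.mul_le_mul_right _ h).trans hcard, Or.inr rfl, fun k hk => ?_⟩
    obtain ⟨σ₀, hσc, hσ₀⟩ := frob_loc (L := fixedField H.normalCore) hq hlocq
    obtain ⟨φ, hφ⟩ := fr_exists' H hq σ₀ hσc hσ₀ (hWq3 _ hk)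
    exact log_ineq ι hβ x hx hone H hH hdeg hq hd hφ

end

end Pool.Agent.K9h75.BD
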