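import Mathlib
import Pool.Agent.K9h75.BD.Main3

/-!
# The explicit bound, the asymptotic form, and the bound below Lehmer's number
-/

set_option autoImplicit false

namespace Pool.Agent.K9h75.BD

open Pool.Agent.W738.SAL

/-- the bound for the degree -/
noncomputable def bound (d q D : ℕ) (β : ℝ) : ℝ :=
  225 * d ^ 2 * D * (q : ℝ) ^ (4 * d + 4) * Real.exp (2 * √(3 * d * Real.log q * Real.log D)) *
    Real.log β ^ 2

lemma bound_eq (d q D : ℕ) (β : ℝ) : bound d q D β = D * bd d q D β ^ 2 := by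
  unfold bound bd
  have h1 : Real.exp (2 * √(3 * d * Real.log q * Real.log D)) =
      Real.exp (√(3 * (d * Real.log q) * Real.log D)) ^ 2 := by
    rw [← Real.exp_nat_mul]
    congr 1
    push_cast
    congr 2
    ring
  have h2 : (q : ℝ) ^ (4 * d + 4) = ((q : ℝ) ^ (2 * d + 2)) ^ 2 := by
    rw [← pow_mul]
    congr 1
    ring
  rw [h1, h2]
  ring

lemma bd_mono {d q D D' : ℕ} {β β' : ℝ} (hq : 2 ≤ q) (hD : 0 < D) (hDD : D ≤ D') (hβ : 1 < β)
    (hββ : β ≤ β') : bd d q D β ≤ bd d q D' β' := by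
  have hq' : (2 : ℝ) ≤ q := by exact_mod_cast hq
  have hlq : 0 < Real.log q := Real.log_pos (by linarith)
  have hD' : (1 : ℝ) ≤ D := by exact_mod_cast hD
  have hDD' : (D : ℝ) ≤ D' := by exact_mod_cast hDD
  have hlD : Real.log D ≤ Real.log D' := Real.log_le_log (by linarith) hDD'
  have hlb : Real.log β ≤ Real.log β' := Real.log_le_log (by linarith) hββ
  have hlb0 : 0 < Real.log β := Real.log_pos hβ
  unfold bd
  apply mul_le_mul _ hlb hlb0.le (by positivity)
  apply mul_le_mul_of_nonneg_left _ (by positivity)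
  apply Real.exp_le_exp.2
  apply Real.sqrt_le_sqrt
  exact mul_le_mul_of_nonneg_left hlD (by positivity)

lemma bound_mono {d q D D' : ℕ} {β β' : ℝ} (hq : 2 ≤ q) (hD : 0 < D) (hDD : D ≤ D') (hβ : 1 < β)
    (hββ : β ≤ β') : bound d q D β ≤ bound d q D' β' := by
  rw [bound_eq, bound_eq]
  have hq' : (2 : ℝ) ≤ q := by exact_mod_cast hq
  have h0 : 0 ≤ bd d q D β := by
    unfold bd
    have : 0 < Real.log β := Real.log_pos hβ
    positivity
  have hDD' : (D : ℝ) ≤ D' := by exact_mod_cast hDD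
  apply mul_le_mul hDD' _ (by positivity) (by positivity)
  exact pow_le_pow_left₀ h0 (bd_mono hq hD hDD hβ hββ) 2

/-- the explicit bound -/
theorem explicit3 {β : ℝ} (hP : IsPerron β) (L : IntermediateField ℚ ℂ) [hLn : Normal ℚ L] {d : ℕ}
    (hd : 0 < d) (hcen : ∀ σ τ : L ≃ₐ[ℚ] L, σ ^ d * τ = τ * σ ^ d) {D : ℕ}
    (hD : (minpoly L (β : ℂ)).natDegree ≤ D) {p q : ℕ} (hp : p.Prime)
    (hq : q.Prime) (hpq : p < q) (hpd : ¬ p ∣ d) (hqd : ¬ q ∣ d)
    (hdeg : bound d q D β < (minpoly ℚ β).natDegree) : (ParryPowers β).Finite := by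
  have hintQ : IsIntegral ℚ (β : ℂ) := by
    have := hP.2.1.map (Complex.ofRealAm.restrictScalars ℤ)
    exact IsIntegral.tower_top (R := ℤ) this
  have hintL : IsIntegral L (β : ℂ) := hintQ.tower_top
  have h0 : 0 < (minpoly L (β : ℂ)).natDegree := minpoly.natDegree_pos hintL
  refine main3 hP L hd hcen hp hq hpq hpd hqd ?_
  rw [← bound_eq]
  exact (bound_mono hq.two_le h0 hD hP.1 le_rfl).trans_lt hdeg

lemma exists_primes (d : ℕ) (hd : 0 < d) :
    ∃ p q : ℕ, p.Prime ∧ q.Prime ∧ p < q ∧ ¬ p ∣ d ∧ ¬ q ∣ d := by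
  obtain ⟨p, hp1, hp⟩ := Nat.exists_infinite_primes (d + 1)
  obtain ⟨q, hq1, hq⟩ := Nat.exists_infinite_primes (p + 1)
  refine ⟨p, q, hp, hq, by omega, fun h => ?_, fun h => ?_⟩
  · have := Nat.le_of_dvd hd h
    omega
  · have := Nat.le_of_dvd hd h
    omega

/-- the asymptotic form -/
theorem asym (B : ℝ) (d : ℕ) (hd : 0 < d) : ∃ C : ℝ, 0 < C ∧ ∀ (β : ℝ)
    (L : IntermediateField ℚ ℂ), IsPerron β → Normal ℚ L →
      (∀ σ τ : L ≃ₐ[ℚ] L, σ ^ d * τ = τ * σ ^ d) → β ≤ B → 1 < (minpoly ℚ β).natDegree →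
      ((minpoly L (β : ℂ)).natDegree : ℝ) ≤ (minpoly ℚ β).natDegree *
        Real.exp (-C * √(Real.log (minpoly ℚ β).natDegree)) → (ParryPowers β).Finite := by
  obtain ⟨p, q, hp, hq, hpq, hpd, hqd⟩ := exists_primes d hd
  have hq2 : (2 : ℝ) ≤ q := by exact_mod_cast hq.two_le
  have hlq : 0 < Real.log q := Real.log_pos (by linarith)
  set B' : ℝ := max B 2 with hB'
  have hB2 : 2 ≤ B' := le_max_right _ _
  have hlB : 0 < Real.log B' := Real.log_pos (by linarith)
  set w : ℝ := √(3 * (d * Real.log q)) with hw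
  have hw0 : 0 ≤ w := Real.sqrt_nonneg _
  set A : ℝ := (15 * d * (q : ℝ) ^ (2 * d + 2) * Real.log B') ^ 2 with hA
  have hd' : (0 : ℝ) < d := by exact_mod_cast hd
  have hA0 : 0 < A := by positivity
  have hl2 : 0 < Real.log 2 := Real.log_pos (by norm_num)
  have hs2 : 0 < √(Real.log 2) := Real.sqrt_pos.2 hl2
  set a : ℝ := (|Real.log A| + 1) / √(Real.log 2) with ha
  have ha0 : 0 < a := by positivity
  refine ⟨2 * w + a, by positivity, fun β L hP hL hcen hβB hn hD => ?_⟩
  have hintQ : IsIntegral ℚ (β : ℂ) := by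
    have := hP.2.1.map (Complex.ofRealAm.restrictScalars ℤ)
    exact IsIntegral.tower_top (R := ℤ) this
  have hintL : IsIntegral L (β : ℂ) := hintQ.tower_top
  have h0 : 0 < (minpoly L (β : ℂ)).natDegree := minpoly.natDegree_pos hintL
  set D0 : ℕ := (minpoly L (β : ℂ)).natDegree with hD0
  set n : ℕ := (minpoly ℚ β).natDegree with hn'
  have hn2 : (2 : ℝ) ≤ n := by exact_mod_cast hn
  have hD1 : (1 : ℝ) ≤ D0 := by exact_mod_cast h0
  have hln : Real.log 2 ≤ Real.log n := Real.log_le_log (by norm_num) hn2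
  have hsn : √(Real.log 2) ≤ √(Real.log n) := Real.sqrt_le_sqrt hln
  have hsn0 : 0 < √(Real.log n) := hs2.trans_le hsn
  have hDn : (D0 : ℝ) ≤ n := by
    refine hD.trans ?_
    have h1 : Real.exp (-(2 * w + a) * √(Real.log n)) ≤ 1 := by
      rw [Real.exp_le_one_iff]
      have : 0 ≤ (2 * w + a) * √(Real.log n) := by positivity
      linarith
    calc (n : ℝ) * Real.exp (-(2 * w + a) * √(Real.log n)) ≤ n * 1 :=
          mul_le_mul_of_nonneg_left h1 (by linarith)
      _ = n := mul_one _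
  have hlD : Real.log D0 ≤ Real.log n := Real.log_le_log (by linarith) hDn
  have hlD0 : 0 ≤ Real.log D0 := Real.log_nonneg hD1
  have hlb : Real.log β ≤ Real.log B' :=
    Real.log_le_log (by linarith [hP.1]) (hβB.trans (le_max_left _ _))
  have hlb0 : 0 < Real.log β := Real.log_pos hP.1
  have hsq : √(3 * (d * Real.log q) * Real.log D0) ≤ w * √(Real.log n) := by
    rw [Real.sqrt_mul (by positivity)]
    exact mul_le_mul_of_nonneg_left (Real.sqrt_le_sqrt hlD) hw0
  have hbd : bd d q D0 β ^ 2 ≤ A * Real.exp (2 * w * √(Real.log n)) := by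
    have h1 : bd d q D0 β ≤
        (15 * d * (q : ℝ) ^ (2 * d + 2) * Real.log B') * Real.exp (w * √(Real.log n)) := by
      unfold bd
      calc 15 * (d : ℝ) * (q : ℝ) ^ (2 * d + 2) *
            Real.exp (√(3 * (d * Real.log q) * Real.log D0)) * Real.log β
          ≤ 15 * (d : ℝ) * (q : ℝ) ^ (2 * d + 2) * Real.exp (w * √(Real.log n)) *
            Real.log B' := by
            apply mul_le_mul _ hlb hlb0.le (by positivity)
            apply mul_le_mul_of_nonneg_left _ (by positivity)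
            exact Real.exp_le_exp.2 hsq
        _ = _ := by ring
    have h2 : 0 ≤ bd d q D0 β := by
      unfold bd
      positivity
    calc bd d q D0 β ^ 2 ≤ ((15 * d * (q : ℝ) ^ (2 * d + 2) * Real.log B') *
          Real.exp (w * √(Real.log n))) ^ 2 := pow_le_pow_left₀ h2 h1 2
      _ = A * Real.exp (2 * w * √(Real.log n)) := by
        rw [mul_pow, ← Real.exp_nat_mul, hA]
        congr 2
        push_cast
        ring
  refine main3 hP L (hLn := hL) hd hcen hp hq hpq hpd hqd ?_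
  rw [← hD0, ← hn']
  have hlast : A * Real.exp (-a * √(Real.log n)) < 1 := by
    have h1 : |Real.log A| + 1 ≤ a * √(Real.log n) := by
      calc |Real.log A| + 1 = a * √(Real.log 2) := by
            rw [ha, div_mul_cancel₀ _ hs2.ne']
        _ ≤ a * √(Real.log n) := mul_le_mul_of_nonneg_left hsn ha0.le
    have h2 : A = Real.exp (Real.log A) := (Real.exp_log hA0).symm
    rw [h2, ← Real.exp_add, Real.exp_lt_one_iff]
    have h3 := le_abs_self (Real.log A)
    linarith
  calc (D0 : ℝ) * bd d q D0 β ^ 2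
      ≤ (n * Real.exp (-(2 * w + a) * √(Real.log n))) *
        (A * Real.exp (2 * w * √(Real.log n))) :=
        mul_le_mul hD hbd (by positivity) (by positivity)
    _ = n * (A * Real.exp (-a * √(Real.log n))) := by
        have h1 : Real.exp (-a * √(Real.log n)) =
            Real.exp (-(2 * w + a) * √(Real.log n)) * Real.exp (2 * w * √(Real.log n)) := by
          rw [← Real.exp_add]
          congr 1
          ring
        rw [h1]
        ring
    _ < n * 1 := mul_lt_mul_of_pos_left hlast (by linarith)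
    _ = n := mul_one _

/-- the bound below Lehmer's number -/
theorem lehmer3 {τ β : ℝ} (hτ1 : 1 < τ)
    (hτ : τ ^ 10 + τ ^ 9 - τ ^ 7 - τ ^ 6 - τ ^ 5 - τ ^ 4 - τ ^ 3 + τ + 1 = 0)
    (hP : IsPerron β) (hβ : β < τ) : Real.log β < 1 / 6 := by
  have hlt : β < 1.18 := by
    have h0 : τ < 1.18 := by
      by_contra hcon
      push Not at hcon
      obtain ⟨y, rfl⟩ : ∃ y : ℝ, τ = 1.18 + y := ⟨τ - 1.18, by ring⟩
      have hy : 0 ≤ y := by linarith
      ring_nf at hτ
      nlinarith [pow_nonneg hy 2, pow_nonneg hy 3, pow_nonneg hy 4, pow_nonneg hy 5,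
        pow_nonneg hy 6, pow_nonneg hy 7, pow_nonneg hy 8, pow_nonneg hy 9, pow_nonneg hy 10]
    linarith
  rw [Real.log_lt_iff_lt_exp (by linarith [hP.1])]
  have h1 := Real.quadratic_le_exp_of_nonneg (show (0 : ℝ) ≤ 1 / 6 by norm_num)
  linarith

end Pool.Agent.K9h75.BD
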