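import Mathlib
import Pool.Agent.W738.SAL.E
import Pool.Agent.K9h75.BD.Core4
import Pool.Agent.K9h75.BD.Num4

/-!
# Parry powers of numbers of small relative degree under local conditions
-/

set_option autoImplicit false

open NumberField IntermediateField

namespace Pool.Agent.K9h75.BD

open Pool.Agent.W738.SAL

section

variable {M : Type} [Field M] [NumberField M] [IsGalois ℚ M]

lemma mem_range_of_fixed {L : Type} [Field L] [Algebra ℚ L] [Algebra L M] [IsScalarTower ℚ L M]
    [Normal ℚ L] {N : Subgroup (M ≃ₐ[ℚ] M)}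
    (hN : (AlgEquiv.restrictNormalHom (F := ℚ) (K₁ := M) L).ker ≤ N) {y : M}
    (hy : y ∈ fixedField N) : ∃ z : L, algebraMap L M z = y := by
  set i : L →ₐ[ℚ] M := IsScalarTower.toAlgHom ℚ L M with hi
  have h1 : i.fieldRange.fixingSubgroup ≤ N := by
    refine le_trans ?_ hN
    intro g hg
    rw [MonoidHom.mem_ker]
    apply AlgEquiv.ext
    intro y
    apply (algebraMap L M).injective
    have h2 := AlgEquiv.restrictNormal_commutes g L y
    have h3 : g (algebraMap L M y) = algebraMap L M y :=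
      (mem_fixingSubgroup_iff _ _).1 hg _ ⟨y, rfl⟩
    rw [h3] at h2
    exact h2
  have h2 : fixedField N ≤ i.fieldRange := by
    calc fixedField N ≤ fixedField i.fieldRange.fixingSubgroup := fixedField_antitone h1
      _ = i.fieldRange := IsGalois.fixedField_fixingSubgroup _
  obtain ⟨z, hz⟩ := h2 hy
  exact ⟨z, hz⟩

theorem abs4 (ι : M →ₐ[ℚ] ℂ) {β : ℝ} (hβ : 1 < β) (x : 𝓞 M)
    (hx : ι (x : M) = (β : ℂ))
    (hone : ∀ z : ℂ, Polynomial.aeval z (minpoly ℚ (x : M)) = 0 → z ≠ (β : ℂ) → ‖z‖ ≤ 1)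
    {L : Type} [Field L] [Algebra ℚ L] [Algebra L M] [IsScalarTower ℚ L M] [Normal ℚ L]
    {d e : ℕ} (hd : 0 < d) (he : 0 < e)
    {P : Polynomial L} (hP : P ≠ 0) (hPx : Polynomial.aeval (x : M) P = 0) {D : ℕ}
    (hD : P.natDegree ≤ D) {p q : ℕ} (hp : p.Prime)
    (hq : q.Prime) (hpq : p < q)
    (hloc : ∀ (K : Type) [Field K] [NumberField K] [IsGalois ℚ K] (f : K →+* M),
      (∀ y, ∃ z : L, algebraMap L M z = f y) → LocC K p d e ∧ LocC K q d e) :
    ((minpoly ℚ (x : M)).natDegree : ℝ) ≤ D * bd4 d e q D β ^ 2 := by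
  classical
  set r0 : (M ≃ₐ[ℚ] M) →* (L ≃ₐ[ℚ] L) := AlgEquiv.restrictNormalHom L with hr0
  obtain ⟨m, s, r, Z, hZΔ, hdeg, hs, hsm, hr, h⟩ := core4 ι hβ x hx hone r0.ker inferInstance
    (d := d) (e := e) hd hp hq hpq.ne (fun N hN hΔN => by
      have hgal : IsGalois ℚ (fixedField N) :=
        IsGalois.of_fixedField_normal_subgroup (K := ℚ) (L := M) N
      exact hloc (fixedField N) (algebraMap (fixedField N) M)
        (fun y => mem_range_of_fixed hΔN y.2))
  have hcard : Z.card ≤ P.natDegree := by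
    have h1 : ∀ z ∈ Z, (z : M) ∈ (P.map (algebraMap L M)).roots.toFinset := by
      intro z hz
      obtain ⟨δ, hδ, rfl⟩ := hZΔ z hz
      rw [Multiset.mem_toFinset, Polynomial.mem_roots (Polynomial.map_ne_zero hP),
        Polynomial.IsRoot.def, Polynomial.eval_map]
      have h3 : ∀ y : L, δ (algebraMap L M y) = algebraMap L M y := by
        intro y
        have h4 := AlgEquiv.restrictNormal_commutes δ L y
        have h5 : δ.restrictNormal L = 1 := hδ
        rw [h5] at h4
        exact h4.symm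
      have h6 : (δ : M →+* M).comp (algebraMap L M) = algebraMap L M := by
        ext y
        exact h3 y
      have h7 := congrArg (δ : M →+* M) hPx
      rw [Polynomial.aeval_def, Polynomial.hom_eval₂, h6, map_zero] at h7
      exact h7
    have h2 : Z.card ≤ (P.map (algebraMap L M)).roots.toFinset.card :=
      Finset.card_le_card_of_injOn (fun z : 𝓞 M => (z : M)) h1
        (fun a _ b _ hab => RingOfIntegers.coe_injective hab)
    calc Z.card ≤ (P.map (algebraMap L M)).roots.toFinset.card := h2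
      _ ≤ (P.map (algebraMap L M)).roots.card := Multiset.toFinset_card_le _
      _ ≤ (P.map (algebraMap L M)).natDegree := Polynomial.card_roots' _
      _ = P.natDegree := Polynomial.natDegree_map _
  exact num4 hβ (hcard.trans hD) hdeg
    (minpoly.natDegree_pos (Algebra.IsIntegral.isIntegral _)) hs hsm hr hp.two_le hpq.le hd he h

end

/-- a finite extension of `ℚ` in `ℂ` lies in a finite Galois extension -/
lemma exists_galois4 (E : IntermediateField ℚ ℂ) [FiniteDimensional ℚ E] :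
    ∃ M : IntermediateField ℚ ℂ, E ≤ M ∧ FiniteDimensional ℚ M ∧ Normal ℚ M := by
  refine ⟨normalClosure ℚ E ℂ, le_normalClosure E, inferInstance, ?_⟩
  have h := Algebra.IsAlgebraic.isNormalClosure_normalClosure (F := ℚ) (K := E) (L := ℂ)
    (fun x => IsAlgClosed.splits _)
  exact h.normal

/-- the local condition for the field `L` at the prime number `r` -/
def LocL (L : IntermediateField ℚ ℂ) (r d e : ℕ) : Prop :=
  ∀ (K : Type) [Field K] [NumberField K] [IsGalois ℚ K] (f : K →+* ℂ), (∀ y, f y ∈ L) →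
    LocC K r d e

theorem main4 {β : ℝ} (hP : IsPerron β) (L : IntermediateField ℚ ℂ) [hLn : Normal ℚ L] {d e : ℕ}
    (hd : 0 < d) (he : 0 < e) {p q : ℕ} (hp : p.Prime)
    (hq : q.Prime) (hpq : p < q) (hlp : LocL L p d e) (hlq : LocL L q d e)
    (hdeg : ((minpoly L (β : ℂ)).natDegree : ℝ) * bd4 d e q (minpoly L (β : ℂ)).natDegree β ^ 2 <
      (minpoly ℚ β).natDegree) :
    (ParryPowers β).Finite := by
  classical
  by_contra hinf
  have hone : ∀ z : ℂ, Polynomial.aeval z (minpoly ℤ β) = 0 → z ≠ (β : ℂ) → ‖z‖ ≤ 1 :=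
    fun z hz hne => one_of_inf hP hinf hz hne
  -- integrality
  have hint : IsIntegral ℤ (β : ℂ) := by
    have := hP.2.1.map (Complex.ofRealAm.restrictScalars ℤ)
    exact this
  have hintQ : IsIntegral ℚ (β : ℂ) := hint.tower_top
  have hintL : IsIntegral L (β : ℂ) := hintQ.tower_top
  have halg : Algebra.IsAlgebraic ℚ L := hLn.toIsAlgebraic
  -- the coefficients
  set P0 : Polynomial L := minpoly L (β : ℂ) with hP0
  have hP0m : P0.Monic := minpoly.monic hintL
  set S : Set ℂ := insert (β : ℂ) (((P0.support).image (fun n => ((P0.coeff n : L) : ℂ)) : Finset ℂ) :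
    Set ℂ) with hS
  have hSfin : S.Finite := (Finset.finite_toSet _).insert _
  have hSint : ∀ z ∈ S, IsIntegral ℚ z := by
    intro z hz
    rcases hz with rfl | hz
    · exact hintQ
    · obtain ⟨n, -, rfl⟩ := Finset.mem_image.1 (Finset.mem_coe.1 hz)
      exact (Algebra.IsIntegral.isIntegral (R := ℚ) (P0.coeff n)).map L.val
  have : Finite S := hSfin
  have hE : FiniteDimensional ℚ (adjoin ℚ S) := finiteDimensional_adjoin hSint
  obtain ⟨M, hEM, hMf, hMn⟩ := exists_galois4 (adjoin ℚ S)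
  have hSM : ∀ z ∈ S, z ∈ M := fun z hz => hEM (subset_adjoin ℚ S hz)
  have hβM : (β : ℂ) ∈ M := hSM _ (Set.mem_insert _ _)
  have hcM : ∀ n, ((P0.coeff n : L) : ℂ) ∈ M := by
    intro n
    by_cases h : n ∈ P0.support
    · exact hSM _ (Set.mem_insert_of_mem _ (Finset.mem_coe.2 (Finset.mem_image.2 ⟨n, h, rfl⟩)))
    · rw [Polynomial.notMem_support_iff.1 h]
      exact M.zero_mem
  -- the field `L ⊓ M`
  have hL'n : Normal ℚ (L ⊓ M : IntermediateField ℚ ℂ) :=
    @IntermediateField.normal_inf ℚ ℂ _ _ _ L M hLn hMn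
  let i1 : (L ⊓ M : IntermediateField ℚ ℂ) →ₐ[ℚ] L := inclusion inf_le_left
  let i2 : (L ⊓ M : IntermediateField ℚ ℂ) →ₐ[ℚ] M := inclusion inf_le_right
  let a2 : Algebra (L ⊓ M : IntermediateField ℚ ℂ) M := i2.toRingHom.toAlgebra
  have s2 : IsScalarTower ℚ (L ⊓ M : IntermediateField ℚ ℂ) M :=
    IsScalarTower.of_algebraMap_eq (fun r => (i2.commutes r).symm)
  have hlift : P0 ∈ Polynomial.lifts i1.toRingHom := by
    rw [Polynomial.lifts_iff_coeff_lifts]
    intro n
    exact ⟨⟨((P0.coeff n : L) : ℂ), ⟨(P0.coeff n).2, hcM n⟩⟩, rfl⟩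
  obtain ⟨P, hP1, hP2, hP3⟩ := Polynomial.lifts_and_natDegree_eq_and_monic hlift hP0m
  -- the element
  have hxint : IsIntegral ℤ (⟨(β : ℂ), hβM⟩ : M) := by
    have h3 : IsIntegral ℤ (M.val ⟨(β : ℂ), hβM⟩) := hint
    exact (isIntegral_algHom_iff (M.val.restrictScalars ℤ) M.val.injective).1 h3
  have hnf : NumberField M := ⟨⟩
  have hgal : IsGalois ℚ M := ⟨⟩
  set x : 𝓞 M := ⟨⟨(β : ℂ), hβM⟩, hxint⟩ with hxdef
  have e1 : minpoly ℚ (x : M) = minpoly ℚ (β : ℂ) :=
    (minpoly.algHom_eq M.val M.val.injective (x : M)).symm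
  have e2 : minpoly ℚ (β : ℂ) = minpoly ℚ β :=
    minpoly.algHom_eq (Complex.ofRealAm.restrictScalars ℚ) Complex.ofReal_injective β
  have hmain := abs4 (M := M) M.val hP.1 x rfl ?_ (L := (L ⊓ M : IntermediateField ℚ ℂ)) hd he
    (P := P) hP3.ne_zero ?_ hP2.le hp hq hpq ?_
  · have h3 : ((minpoly ℚ β).natDegree : ℝ) ≤ P0.natDegree * bd4 d e q P0.natDegree β ^ 2 := by
      rw [← e2, ← e1]
      exact hmain
    linarith
  · intro z hz hne
    apply hone z _ hne
    have e3 : minpoly ℚ (x : M) = (minpoly ℤ β).map (algebraMap ℤ ℚ) := by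
      rw [e1, e2]
      exact minpoly.isIntegrallyClosed_eq_field_fractions' ℚ hP.2.1
    have e4 : Polynomial.aeval z ((minpoly ℤ β).map (algebraMap ℤ ℚ)) = 0 := by
      rw [← e3]
      exact hz
    rw [Polynomial.aeval_map_algebraMap] at e4
    exact e4
  · apply M.val.injective
    rw [map_zero]
    have h1 : Polynomial.aeval (β : ℂ) P0 = 0 := minpoly.aeval L (β : ℂ)
    rw [← hP1, Polynomial.aeval_def, Polynomial.eval₂_map] at h1
    exact (Polynomial.hom_eval₂ P (algebraMap _ M) M.val.toRingHom (x : M)).trans h1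
  · intro K _ _ _ f hf
    have hfL : ∀ y, (M.val.toRingHom.comp f) y ∈ L := by
      intro y
      obtain ⟨z, hz⟩ := hf y
      have h1 : (M.val.toRingHom.comp f) y = ((f y : M) : ℂ) := rfl
      rw [h1, ← hz]
      exact z.2.1
    exact ⟨hlp K (M.val.toRingHom.comp f) hfL, hlq K (M.val.toRingHom.comp f) hfL⟩

/-- finite exponent modulo the centre implies the local condition -/
theorem locL_of_exp (L : IntermediateField ℚ ℂ) [hLn : Normal ℚ L] {r d : ℕ} (hr : r.Prime)
    (hd : 0 < d) (hdr : ¬ r ∣ d) (hcen : ∀ σ τ : L ≃ₐ[ℚ] L, σ ^ d * τ = τ * σ ^ d) :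
    LocL L r d d := by
  classical
  intro K _ _ hK f hf
  let f' : K →+* L := f.codRestrict L.toSubfield.toSubring hf
  let a : Algebra K L := f'.toAlgebra
  have st : IsScalarTower ℚ K L := IsScalarTower.of_algebraMap_eq fun q => by
    show algebraMap ℚ L q = f' (algebraMap ℚ K q)
    simp
  have hcen' : ∀ σ τ : K ≃ₐ[ℚ] K, σ ^ d * τ = τ * σ ^ d := by
    intro σ τ
    obtain ⟨σ', rfl⟩ := AlgEquiv.restrictNormalHom_surjective (F := ℚ) (K₁ := K) L σ
    obtain ⟨τ', rfl⟩ := AlgEquiv.restrictNormalHom_surjective (F := ℚ) (K₁ := K) L τ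
    rw [← map_pow, ← map_mul, ← map_mul, hcen]
  exact locC_of_exp hr hd hdr hcen'

end Pool.Agent.K9h75.BD
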