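import Mathlib
import Pool.Agent.K9h75.BD.Main4

/-!
# The explicit bound and the asymptotic form under local conditions
-/

set_option autoImplicit false

namespace Pool.Agent.K9h75.BD

open Pool.Agent.W738.SAL

/-- the bound for the degree -/
noncomputable def bound4 (d e q D : ℕ) (β : ℝ) : ℝ :=
  225 * e ^ 2 * D * (q : ℝ) ^ (4 * d + 4) * Real.exp (2 * √(3 * d * Real.log q * Real.log D)) *
    Real.log β ^ 2

lemma bound4_eq (d e q D : ℕ) (β : ℝ) : bound4 d e q D β = D * bd4 d e q D β ^ 2 := by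
  unfold bound4 bd4
  have h1 : Real.exp (2 * √(3 * d * Real.log q * Real.log D)) =
      Real.exp (√(3 * (d * Real.log q) * Real.log D)) ^ 2 := by
    rw [← Real.exp_nat_mul]
    congr 1
    push_cast
    congr 2
    ring
  have h2 : (q : ℝ) ^ (4 * d + 4) = ((q : ℝ) ^ (2 * d + 2)) ^ 2 := by
    rw [← pow_mul]
    congr 1
    ring
  rw [h1, h2]
  ring

lemma bd4_mono {d e q D D' : ℕ} {β β' : ℝ} (hq : 2 ≤ q) (hD : 0 < D) (hDD : D ≤ D') (hβ : 1 < β)
    (hββ : β ≤ β') : bd4 d e q D β ≤ bd4 d e q D' β' := by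
  have hq' : (2 : ℝ) ≤ q := by exact_mod_cast hq
  have hlq : 0 < Real.log q := Real.log_pos (by linarith)
  have hD' : (1 : ℝ) ≤ D := by exact_mod_cast hD
  have hDD' : (D : ℝ) ≤ D' := by exact_mod_cast hDD
  have hlD : Real.log D ≤ Real.log D' := Real.log_le_log (by linarith) hDD'
  have hlb : Real.log β ≤ Real.log β' := Real.log_le_log (by linarith) hββ
  have hlb0 : 0 < Real.log β := Real.log_pos hβ
  unfold bd4
  apply mul_le_mul _ hlb hlb0.le (by positivity)
  apply mul_le_mul_of_nonneg_left _ (by positivity)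
  apply Real.exp_le_exp.2
  apply Real.sqrt_le_sqrt
  exact mul_le_mul_of_nonneg_left hlD (by positivity)

lemma bound4_mono {d e q D D' : ℕ} {β β' : ℝ} (hq : 2 ≤ q) (hD : 0 < D) (hDD : D ≤ D') (hβ : 1 < β)
    (hββ : β ≤ β') : bound4 d e q D β ≤ bound4 d e q D' β' := by
  rw [bound4_eq, bound4_eq]
  have hq' : (2 : ℝ) ≤ q := by exact_mod_cast hq
  have h0 : 0 ≤ bd4 d e q D β := by
    unfold bd4
    have : 0 < Real.log β := Real.log_pos hβ
    positivity
  have hDD' : (D : ℝ) ≤ D' := by exact_mod_cast hDD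
  apply mul_le_mul hDD' _ (by positivity) (by positivity)
  exact pow_le_pow_left₀ h0 (bd4_mono hq hD hDD hβ hββ) 2

/-- the explicit bound -/
theorem explicit4 {β : ℝ} (hP : IsPerron β) (L : IntermediateField ℚ ℂ) [hLn : Normal ℚ L]
    {d e : ℕ} (hd : 0 < d) (he : 0 < e) {D : ℕ}
    (hD : (minpoly L (β : ℂ)).natDegree ≤ D) {p q : ℕ} (hp : p.Prime)
    (hq : q.Prime) (hpq : p < q) (hlp : LocL L p d e) (hlq : LocL L q d e)
    (hdeg : bound4 d e q D β < (minpoly ℚ β).natDegree) : (ParryPowers β).Finite := by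
  have hintQ : IsIntegral ℚ (β : ℂ) := by
    have := hP.2.1.map (Complex.ofRealAm.restrictScalars ℤ)
    exact IsIntegral.tower_top (R := ℤ) this
  have hintL : IsIntegral L (β : ℂ) := hintQ.tower_top
  have h0 : 0 < (minpoly L (β : ℂ)).natDegree := minpoly.natDegree_pos hintL
  refine main4 hP L hd he hp hq hpq hlp hlq ?_
  rw [← bound4_eq]
  exact (bound4_mono hq.two_le h0 hD hP.1 le_rfl).trans_lt hdeg

/-- the asymptotic form -/
theorem asym4 (B : ℝ) (d e : ℕ) (hd : 0 < d) (he : 0 < e) {p q : ℕ} (hp : p.Prime)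
    (hq : q.Prime) (hpq : p < q) : ∃ C : ℝ, 0 < C ∧ ∀ (β : ℝ)
    (L : IntermediateField ℚ ℂ), IsPerron β → Normal ℚ L →
      LocL L p d e → LocL L q d e → β ≤ B → 1 < (minpoly ℚ β).natDegree →
      ((minpoly L (β : ℂ)).natDegree : ℝ) ≤ (minpoly ℚ β).natDegree *
        Real.exp (-C * √(Real.log (minpoly ℚ β).natDegree)) → (ParryPowers β).Finite := by
  have hq2 : (2 : ℝ) ≤ q := by exact_mod_cast hq.two_le
  have hlq : 0 < Real.log q := Real.log_pos (by linarith)
  set B' : ℝ := max B 2 with hB'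
  have hB2 : 2 ≤ B' := le_max_right _ _
  have hlB : 0 < Real.log B' := Real.log_pos (by linarith)
  set w : ℝ := √(3 * (d * Real.log q)) with hw
  have hw0 : 0 ≤ w := Real.sqrt_nonneg _
  set A : ℝ := (15 * e * (q : ℝ) ^ (2 * d + 2) * Real.log B') ^ 2 with hA
  have hd' : (0 : ℝ) < d := by exact_mod_cast hd
  have he' : (0 : ℝ) < e := by exact_mod_cast he
  have hA0 : 0 < A := by positivity
  have hl2 : 0 < Real.log 2 := Real.log_pos (by norm_num)
  have hs2 : 0 < √(Real.log 2) := Real.sqrt_pos.2 hl2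
  set a : ℝ := (|Real.log A| + 1) / √(Real.log 2) with ha
  have ha0 : 0 < a := by positivity
  refine ⟨2 * w + a, by positivity, fun β L hP hL hlp hlq hβB hn hD => ?_⟩
  have hintQ : IsIntegral ℚ (β : ℂ) := by
    have := hP.2.1.map (Complex.ofRealAm.restrictScalars ℤ)
    exact IsIntegral.tower_top (R := ℤ) this
  have hintL : IsIntegral L (β : ℂ) := hintQ.tower_top
  have h0 : 0 < (minpoly L (β : ℂ)).natDegree := minpoly.natDegree_pos hintL
  set D0 : ℕ := (minpoly L (β : ℂ)).natDegree with hD0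
  set n : ℕ := (minpoly ℚ β).natDegree with hn'
  have hn2 : (2 : ℝ) ≤ n := by exact_mod_cast hn
  have hD1 : (1 : ℝ) ≤ D0 := by exact_mod_cast h0
  have hln : Real.log 2 ≤ Real.log n := Real.log_le_log (by norm_num) hn2
  have hsn : √(Real.log 2) ≤ √(Real.log n) := Real.sqrt_le_sqrt hln
  have hsn0 : 0 < √(Real.log n) := hs2.trans_le hsn
  have hDn : (D0 : ℝ) ≤ n := by
    refine hD.trans ?_
    have h1 : Real.exp (-(2 * w + a) * √(Real.log n)) ≤ 1 := by
      rw [Real.exp_le_one_iff]
      have : 0 ≤ (2 * w + a) * √(Real.log n) := by positivity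
      linarith
    calc (n : ℝ) * Real.exp (-(2 * w + a) * √(Real.log n)) ≤ n * 1 :=
          mul_le_mul_of_nonneg_left h1 (by linarith)
      _ = n := mul_one _
  have hlD : Real.log D0 ≤ Real.log n := Real.log_le_log (by linarith) hDn
  have hlD0 : 0 ≤ Real.log D0 := Real.log_nonneg hD1
  have hlb : Real.log β ≤ Real.log B' :=
    Real.log_le_log (by linarith [hP.1]) (hβB.trans (le_max_left _ _))
  have hlb0 : 0 < Real.log β := Real.log_pos hP.1
  have hsq : √(3 * (d * Real.log q) * Real.log D0) ≤ w * √(Real.log n) := by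
    rw [Real.sqrt_mul (by positivity)]
    exact mul_le_mul_of_nonneg_left (Real.sqrt_le_sqrt hlD) hw0
  have hbd : bd4 d e q D0 β ^ 2 ≤ A * Real.exp (2 * w * √(Real.log n)) := by
    have h1 : bd4 d e q D0 β ≤
        (15 * e * (q : ℝ) ^ (2 * d + 2) * Real.log B') * Real.exp (w * √(Real.log n)) := by
      unfold bd4
      calc 15 * (e : ℝ) * (q : ℝ) ^ (2 * d + 2) *
            Real.exp (√(3 * (d * Real.log q) * Real.log D0)) * Real.log β
          ≤ 15 * (e : ℝ) * (q : ℝ) ^ (2 * d + 2) * Real.exp (w * √(Real.log n)) *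
            Real.log B' := by
            apply mul_le_mul _ hlb hlb0.le (by positivity)
            apply mul_le_mul_of_nonneg_left _ (by positivity)
            exact Real.exp_le_exp.2 hsq
        _ = _ := by ring
    have h2 : 0 ≤ bd4 d e q D0 β := by
      unfold bd4
      positivity
    calc bd4 d e q D0 β ^ 2 ≤ ((15 * e * (q : ℝ) ^ (2 * d + 2) * Real.log B') *
          Real.exp (w * √(Real.log n))) ^ 2 := pow_le_pow_left₀ h2 h1 2
      _ = A * Real.exp (2 * w * √(Real.log n)) := by
        rw [mul_pow, ← Real.exp_nat_mul, hA]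
        congr 2
        push_cast
        ring
  refine main4 hP L (hLn := hL) hd he hp hq hpq hlp hlq ?_
  rw [← hD0, ← hn']
  have hlast : A * Real.exp (-a * √(Real.log n)) < 1 := by
    have h1 : |Real.log A| + 1 ≤ a * √(Real.log n) := by
      calc |Real.log A| + 1 = a * √(Real.log 2) := by
            rw [ha, div_mul_cancel₀ _ hs2.ne']
        _ ≤ a * √(Real.log n) := mul_le_mul_of_nonneg_left hsn ha0.le
    have h2 : A = Real.exp (Real.log A) := (Real.exp_log hA0).symm
    rw [h2, ← Real.exp_add, Real.exp_lt_one_iff]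
    have h3 := le_abs_self (Real.log A)
    linarith
  calc (D0 : ℝ) * bd4 d e q D0 β ^ 2
      ≤ (n * Real.exp (-(2 * w + a) * √(Real.log n))) *
        (A * Real.exp (2 * w * √(Real.log n))) :=
        mul_le_mul hD hbd (by positivity) (by positivity)
    _ = n * (A * Real.exp (-a * √(Real.log n))) := by
        have h1 : Real.exp (-a * √(Real.log n)) =
            Real.exp (-(2 * w + a) * √(Real.log n)) * Real.exp (2 * w * √(Real.log n)) := by
          rw [← Real.exp_add]
          congr 1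
          ring
        rw [h1]
        ring
    _ < n * 1 := mul_lt_mul_of_pos_left hlast (by linarith)
    _ = n := mul_one _

end Pool.Agent.K9h75.BD
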